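import Mathlib

/-!
Finite (k,t)-regular graphs: products, Johnson graphs, complete multipartite graphs.
-/

namespace Pool.Agent.KTR

open Finset

/-- `G` is (k,t)-regular: every vertex has exactly `k` neighbours (in particular finitely many)
and the two ends of every edge have exactly `t` common neighbours. -/
def IsKT {V : Type*} (G : SimpleGraph V) (k t : ℕ) : Prop :=
  (∀ v, (G.neighborSet v).encard = k) ∧
    ∀ v w, G.Adj v w → (G.neighborSet v ∩ G.neighborSet w).encard = t

/-- There is a finite nonempty (k,t)-regular graph. -/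
def Ex (k t : ℕ) : Prop := ∃ (n : ℕ) (H : SimpleGraph (Fin (n + 1))), IsKT H k t

lemma IsKT.comap {V W : Type*} {G : SimpleGraph V} {H : SimpleGraph W} {k t : ℕ}
    (h : IsKT G k t) (f : H ↪g G) (hf : ∀ w v, G.Adj (f w) v → v ∈ Set.range f) :
    IsKT H k t := by
  have e : ∀ w, H.neighborSet w = f ⁻¹' (G.neighborSet (f w)) := by
    intro w
    ext x
    simp [SimpleGraph.mem_neighborSet]
  constructor
  · intro w
    rw [e, Set.encard_preimage_of_injective_subset_range f.injective]
    · exact h.1 _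
    · intro v hv
      exact hf w v hv
  · intro v w hvw
    rw [e, e, ← Set.preimage_inter, Set.encard_preimage_of_injective_subset_range f.injective]
    · exact h.2 _ _ (f.map_adj_iff.2 hvw)
    · intro x hx
      exact hf v x hx.1

lemma Ex.of {V : Type*} [Finite V] [Nonempty V] {G : SimpleGraph V} {k t : ℕ} (h : IsKT G k t) :
    Ex k t := by
  obtain ⟨n, hn⟩ : ∃ n, Nat.card V = n + 1 := by
    have : 0 < Nat.card V := Nat.card_pos
    exact ⟨Nat.card V - 1, by omega⟩
  let e : V ≃ Fin (n + 1) := (Finite.equivFin _).trans (finCongr hn)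
  refine ⟨n, G.map e.toEmbedding, ?_⟩
  have e' : G.map e.toEmbedding ≃g G := (SimpleGraph.Iso.map e _).symm
  refine h.comap e'.toEmbedding ?_
  intro w x _
  exact ⟨e'.symm x, by simp⟩

lemma IsKT.prod {V W : Type*} {G : SimpleGraph V} {H : SimpleGraph W} {k l t : ℕ}
    (hG : IsKT G k t) (hH : IsKT H l t) : IsKT (G □ H) (k + l) t := by
  have e : ∀ v w, (G □ H).neighborSet (v, w)
      = (fun a => (a, w)) '' (G.neighborSet v) ∪ (fun b => (v, b)) '' (H.neighborSet w) := by
    intro v w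
    ext ⟨a, b⟩
    simp only [SimpleGraph.mem_neighborSet, SimpleGraph.boxProd_adj, Set.mem_union,
      Set.mem_image, Prod.mk.injEq]
    constructor
    · rintro (⟨h1, h2⟩ | ⟨h1, h2⟩)
      · exact Or.inl ⟨a, h1, rfl, h2⟩
      · exact Or.inr ⟨b, h1, h2, rfl⟩
    · rintro (⟨x, h1, h2, h3⟩ | ⟨x, h1, h2, h3⟩)
      · subst h2; exact Or.inl ⟨h1, h3⟩
      · subst h3; exact Or.inr ⟨h1, h2⟩
  have i1 : ∀ w : W, Function.Injective (fun a : V => (a, w)) := by
    intro w a b h; exact (Prod.mk.injEq _ _ _ _ ▸ h).1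
  have i2 : ∀ v : V, Function.Injective (fun b : W => (v, b)) := by
    intro v a b h; exact (Prod.mk.injEq _ _ _ _ ▸ h).2
  constructor
  · rintro ⟨v, w⟩
    rw [e, Set.encard_union_eq, (i1 w).encard_image, (i2 v).encard_image, hG.1, hH.1]
    · push_cast; rfl
    · rw [Set.disjoint_left]
      rintro ⟨a, b⟩ ⟨x, hx, hx'⟩ ⟨y, hy, hy'⟩
      simp only [Prod.mk.injEq] at hx' hy'
      have : x = v := hx'.1.trans hy'.1.symm
      subst this
      exact G.loopless.irrefl _ hx
  · rintro ⟨v, w⟩ ⟨v', w'⟩ h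
    rw [SimpleGraph.boxProd_adj] at h
    rcases h with ⟨h1, h2⟩ | ⟨h1, h2⟩
    · simp only at h1 h2
      subst h2
      have e1 : (G □ H).neighborSet (v, w) ∩ (G □ H).neighborSet (v', w)
          = (fun a => (a, w)) '' (G.neighborSet v ∩ G.neighborSet v') := by
        ext ⟨a, b⟩
        simp only [SimpleGraph.mem_neighborSet, SimpleGraph.boxProd_adj, Set.mem_inter_iff,
          Set.mem_image, Prod.mk.injEq]
        constructor
        · rintro ⟨⟨h3, h4⟩ | ⟨h3, h4⟩, ⟨h5, h6⟩ | ⟨h5, h6⟩⟩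
          · exact ⟨a, ⟨h3, h5⟩, rfl, h4⟩
          · subst h4; exact absurd h5 (H.loopless.irrefl _)
          · subst h6; exact absurd h3 (H.loopless.irrefl _)
          · subst h4; subst h6; exact absurd h1 (G.loopless.irrefl _)
        · rintro ⟨x, ⟨h3, h4⟩, h5, h6⟩
          subst h5; exact ⟨Or.inl ⟨h3, h6⟩, Or.inl ⟨h4, h6⟩⟩
      rw [e1, (i1 w).encard_image, hG.2 _ _ h1]
    · simp only at h1 h2
      subst h2
      have e1 : (G □ H).neighborSet (v, w) ∩ (G □ H).neighborSet (v, w')
          = (fun b => (v, b)) '' (H.neighborSet w ∩ H.neighborSet w') := by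
        ext ⟨a, b⟩
        simp only [SimpleGraph.mem_neighborSet, SimpleGraph.boxProd_adj, Set.mem_inter_iff,
          Set.mem_image, Prod.mk.injEq]
        constructor
        · rintro ⟨⟨h3, h4⟩ | ⟨h3, h4⟩, ⟨h5, h6⟩ | ⟨h5, h6⟩⟩
          · subst h4; subst h6; exact absurd h1 (H.loopless.irrefl _)
          · subst h6; exact absurd h3 (G.loopless.irrefl _)
          · subst h4; exact absurd h5 (G.loopless.irrefl _)
          · exact ⟨b, ⟨h3, h5⟩, h4, rfl⟩
        · rintro ⟨x, ⟨h3, h4⟩, h5, h6⟩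
          subst h6; exact ⟨Or.inr ⟨h3, h5⟩, Or.inr ⟨h4, h5⟩⟩
      rw [e1, (i2 v).encard_image, hH.2 _ _ h1]

lemma Ex.add {k l t : ℕ} (h1 : Ex k t) (h2 : Ex l t) : Ex (k + l) t := by
  obtain ⟨n, G, hG⟩ := h1
  obtain ⟨m, H, hH⟩ := h2
  exact Ex.of (hG.prod hH)

lemma Ex.zero (t : ℕ) : Ex 0 t := by
  refine ⟨0, ⊥, ?_, ?_⟩
  · intro v; simp
  · intro v w h; simp at h

lemma Ex.mul {k t : ℕ} (h : Ex k t) (q : ℕ) : Ex (q * k) t := by
  induction q with
  | zero => simpa using Ex.zero t
  | succ q ih => rw [Nat.succ_mul]; exact ih.add h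

/-- Complete multipartite graphs. -/
lemma Ex.multipartite (m s : ℕ) (hs : 0 < s) : Ex ((m + 1) * s) (m * s) := by
  let G : SimpleGraph (Fin (m + 2) × Fin s) :=
    { Adj := fun v w => v.1 ≠ w.1
      symm := ⟨fun v w h => Ne.symm h⟩
      loopless := ⟨fun v h => h rfl⟩ }
  have : Nonempty (Fin (m + 2) × Fin s) := ⟨(0, ⟨0, hs⟩)⟩
  have hadj : ∀ v w, G.Adj v w ↔ v.1 ≠ w.1 := fun v w => Iff.rfl
  refine Ex.of (G := G) ⟨?_, ?_⟩
  · intro v
    have e : G.neighborSet v = ((univ.erase v.1 ×ˢ univ : Finset (Fin (m + 2) × Fin s)) : Set _) := by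
      ext w
      simp [SimpleGraph.mem_neighborSet, hadj, eq_comm]
    rw [e, Set.encard_coe_eq_coe_finsetCard, card_product, card_erase_of_mem (mem_univ _)]
    simp
  · intro v w h
    have e : G.neighborSet v ∩ G.neighborSet w
        = (((univ.erase v.1).erase w.1 ×ˢ univ : Finset (Fin (m + 2) × Fin s)) : Set _) := by
      ext x
      simp only [SimpleGraph.mem_neighborSet, hadj, Set.mem_inter_iff, coe_product, Set.mem_prod,
        mem_coe, mem_erase, mem_univ]
      tauto
    rw [e, Set.encard_coe_eq_coe_finsetCard, card_product, card_erase_of_mem, card_erase_of_mem]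
    · simp
    · simp
    · rw [mem_erase]; exact ⟨Ne.symm h, mem_univ _⟩

/-- Swapping `a` for `b`. -/
def swp {n : ℕ} (s : Finset (Fin n)) (p : Fin n × Fin n) : Finset (Fin n) :=
  insert p.2 (s.erase p.1)

lemma swp_card {n : ℕ} {s : Finset (Fin n)} {p : Fin n × Fin n} (h1 : p.1 ∈ s) (h2 : p.2 ∉ s) :
    (swp s p).card = s.card := by
  rw [swp, card_insert_of_notMem, card_erase_of_mem h1]
  · have : 0 < s.card := card_pos.2 ⟨_, h1⟩
    omega
  · rw [mem_erase]; exact fun h => h2 h.2

lemma sdiff_swp {n : ℕ} {s : Finset (Fin n)} {p : Fin n × Fin n} (h1 : p.1 ∈ s) (h2 : p.2 ∉ s) :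
    s \ swp s p = {p.1} := by
  ext x
  simp only [swp, mem_sdiff, mem_insert, mem_erase, mem_singleton, not_or, not_and]
  constructor
  · rintro ⟨h3, h4, h5⟩
    by_contra h6
    exact h5 h6 h3
  · rintro rfl
    refine ⟨h1, ?_, fun h => absurd rfl h⟩
    intro h; rw [h] at h1; exact h2 h1

lemma swp_sdiff_swp {n : ℕ} {s : Finset (Fin n)} {p q : Fin n × Fin n} (h1 : p.1 ∈ s)
    (h2 : p.2 ∉ s) (h3 : q.1 ∈ s) (h4 : q.2 ∉ s) :
    (swp s p \ swp s q).card = (if p.1 = q.1 then 0 else 1) + (if p.2 = q.2 then 0 else 1) := by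
  have hne1 : p.1 ≠ q.2 := by intro h; rw [h] at h1; exact h4 h1
  have hne2 : q.1 ≠ p.2 := by intro h; rw [h] at h3; exact h2 h3
  by_cases ha : p.1 = q.1
  · by_cases hb : p.2 = q.2
    · have : p = q := Prod.ext ha hb
      subst this; simp
    · have e : swp s p \ swp s q = {p.2} := by
        ext x
        simp only [swp, mem_sdiff, mem_insert, mem_erase, mem_singleton, not_or, not_and]
        constructor
        · rintro ⟨h5 | h5, h6, h7⟩
          · exact h5
          · rw [ha] at h5; exact absurd h5.2 (h7 h5.1)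
        · rintro rfl
          exact ⟨Or.inl rfl, hb, fun _ => h2⟩
      rw [e]; simp [ha, hb]
  · by_cases hb : p.2 = q.2
    · have e : swp s p \ swp s q = {q.1} := by
        ext x
        simp only [swp, mem_sdiff, mem_insert, mem_erase, mem_singleton, not_or, not_and]
        constructor
        · rintro ⟨h5 | h5, h6, h7⟩
          · exact absurd (h5.trans hb) h6
          · by_contra h8; exact h7 h8 h5.2
        · rintro rfl
          refine ⟨Or.inr ⟨Ne.symm ha, h3⟩, ?_, fun h => absurd rfl h⟩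
          rw [← hb]; exact hne2
      rw [e]; simp [ha, hb]
    · have e : swp s p \ swp s q = {q.1, p.2} := by
        ext x
        simp only [swp, mem_sdiff, mem_insert, mem_erase, mem_singleton, not_or, not_and]
        constructor
        · rintro ⟨h5 | h5, h6, h7⟩
          · exact Or.inr h5
          · left; by_contra h8; exact h7 h8 h5.2
        · rintro (rfl | rfl)
          · refine ⟨Or.inr ⟨Ne.symm ha, h3⟩, ?_, fun h => absurd rfl h⟩
            intro h; rw [h] at h3; exact h4 h3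
          · exact ⟨Or.inl rfl, hb, fun _ => h2⟩
      rw [e, card_pair hne2]; simp [ha, hb]

/-- Johnson graph `J(n,m)`. -/
def johnsonG (n m : ℕ) : SimpleGraph {s : Finset (Fin n) // s.card = m} where
  Adj s u := (s.1 \ u.1).card = 1
  symm := ⟨by
    intro s u h
    have h1 := card_sdiff_add_card_inter s.1 u.1
    have h2 := card_sdiff_add_card_inter u.1 s.1
    rw [inter_comm] at h2
    have h3 := s.2; have h4 := u.2
    show (u.1 \ s.1).card = 1
    have h5 : (s.1 \ u.1).card = 1 := h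
    omega⟩
  loopless := ⟨by
    intro s h
    simp at h⟩

lemma swp_surj {n : ℕ} {s u : Finset (Fin n)} (hc : s.card = u.card) (h : (s \ u).card = 1) :
    ∃ p : Fin n × Fin n, p.1 ∈ s ∧ p.2 ∉ s ∧ swp s p = u := by
  obtain ⟨a, ha⟩ := card_eq_one.1 h
  have h1 := card_sdiff_add_card_inter s u
  have h2 := card_sdiff_add_card_inter u s
  rw [inter_comm] at h2
  have h3 : (u \ s).card = 1 := by omega
  obtain ⟨b, hb⟩ := card_eq_one.1 h3
  have ha' : a ∈ s \ u := by rw [ha]; simp
  have hb' : b ∈ u \ s := by rw [hb]; simp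
  rw [mem_sdiff] at ha' hb'
  refine ⟨(a, b), ha'.1, hb'.2, ?_⟩
  ext x
  simp only [swp, mem_insert, mem_erase]
  constructor
  · rintro (rfl | ⟨h4, h5⟩)
    · exact hb'.1
    · by_contra h6
      have : x ∈ s \ u := mem_sdiff.2 ⟨h5, h6⟩
      rw [ha, mem_singleton] at this
      exact h4 this
  · intro hx
    by_cases h4 : x ∈ s
    · right
      refine ⟨?_, h4⟩
      rintro rfl; exact ha'.2 hx
    · left
      have : x ∈ u \ s := mem_sdiff.2 ⟨hx, h4⟩
      rwa [hb, mem_singleton] at this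

lemma swp_inj {n : ℕ} {s : Finset (Fin n)} {p q : Fin n × Fin n} (h1 : p.1 ∈ s)
    (h2 : p.2 ∉ s) (h3 : q.1 ∈ s) (h4 : q.2 ∉ s) (h : swp s p = swp s q) : p = q := by
  have h5 := swp_sdiff_swp h1 h2 h3 h4
  rw [h] at h5
  simp only [sdiff_self, bot_eq_empty, card_empty] at h5
  by_contra h6
  by_cases ha : p.1 = q.1
  · by_cases hb : p.2 = q.2
    · exact h6 (Prod.ext ha hb)
    · simp [ha, hb] at h5
  · rw [if_neg ha] at h5; omega

lemma isKT_johnson (n m : ℕ) (hm : m ≤ n) : IsKT (johnsonG n m) (m * (n - m)) (n - 2) := by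
  -- map from pairs
  have main : ∀ (s : {s : Finset (Fin n) // s.card = m}) (T : Finset (Fin n × Fin n)),
      T ⊆ s.1 ×ˢ s.1ᶜ → ∀ A : Set {s : Finset (Fin n) // s.card = m},
      (∀ u, u ∈ A ↔ ∃ p ∈ T, swp s.1 p = u.1) → A.encard = T.card := by
    intro s T hT A hA
    have himg : (Subtype.val '' A) = ((T.image (swp s.1) : Finset (Finset (Fin n))) : Set _) := by
      ext x
      simp only [Set.mem_image, coe_image, mem_coe]
      constructor
      · rintro ⟨u, hu, rfl⟩
        exact (hA u).1 hu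
      · rintro ⟨p, hp, rfl⟩
        have hp' := hT hp
        rw [mem_product, mem_compl] at hp'
        refine ⟨⟨swp s.1 p, ?_⟩, ?_, rfl⟩
        · rw [swp_card hp'.1 hp'.2]; exact s.2
        · rw [hA]; exact ⟨p, hp, rfl⟩
    rw [← Subtype.val_injective.encard_image A, himg, Set.encard_coe_eq_coe_finsetCard,
      card_image_of_injOn]
    intro p hp q hq hpq
    have hp' := hT hp
    have hq' := hT hq
    rw [mem_product, mem_compl] at hp' hq'
    exact swp_inj hp'.1 hp'.2 hq'.1 hq'.2 hpq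
  have hN : ∀ s u, (johnsonG n m).Adj s u ↔ ∃ p ∈ s.1 ×ˢ s.1ᶜ, swp s.1 p = u.1 := by
    intro s u
    constructor
    · intro h
      obtain ⟨p, h1, h2, h3⟩ := swp_surj (s.2.trans u.2.symm) h
      exact ⟨p, by rw [mem_product, mem_compl]; exact ⟨h1, h2⟩, h3⟩
    · rintro ⟨p, hp, h⟩
      rw [mem_product, mem_compl] at hp
      show (s.1 \ u.1).card = 1
      rw [← h, sdiff_swp hp.1 hp.2, card_singleton]
  constructor
  · intro s
    rw [main s (s.1 ×ˢ s.1ᶜ) (Subset.refl _) ((johnsonG n m).neighborSet s) (fun u => hN s u)]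
    rw [card_product, card_compl, s.2, Fintype.card_fin]
  · intro s u hsu
    obtain ⟨p, hp, hpu⟩ := (hN s u).1 hsu
    rw [mem_product, mem_compl] at hp
    have hcard : 0 < m ∧ 0 < n - m := by
      have h1 : 0 < s.1.card := card_pos.2 ⟨_, hp.1⟩
      have h2 : 0 < s.1ᶜ.card := card_pos.2 ⟨p.2, mem_compl.2 hp.2⟩
      rw [card_compl, Fintype.card_fin] at h2
      have h3 := s.2
      omega
    rw [main s (((s.1.erase p.1) ×ˢ {p.2}) ∪ ({p.1} ×ˢ (s.1ᶜ.erase p.2)))]
    · rw [card_union_of_disjoint, card_product, card_product, card_erase_of_mem hp.1,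
        card_erase_of_mem (mem_compl.2 hp.2), card_compl, s.2, Fintype.card_fin]
      · simp only [card_singleton]
        congr 1
        omega
      · rw [disjoint_left]
        rintro ⟨a, b⟩ h1 h2
        rw [mem_product] at h1 h2
        simp only [mem_erase, mem_singleton] at h1 h2
        exact h1.1.1 h2.1
    · intro q hq
      rw [mem_union, mem_product, mem_product] at hq
      rw [mem_product]
      simp only [mem_erase, mem_singleton, mem_compl] at hq ⊢
      rcases hq with ⟨⟨_, h2⟩, h3⟩ | ⟨h1, h2, h3⟩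
      · rw [h3]; exact ⟨h2, hp.2⟩
      · rw [h1]; exact ⟨hp.1, h3⟩
    · intro x
      rw [Set.mem_inter_iff, SimpleGraph.mem_neighborSet, SimpleGraph.mem_neighborSet, hN s x]
      constructor
      · rintro ⟨⟨q, hq, hqx⟩, h2⟩
        rw [mem_product, mem_compl] at hq
        have h3 : (swp s.1 p \ swp s.1 q).card = 1 := by rw [hpu, hqx]; exact h2
        rw [swp_sdiff_swp hp.1 hp.2 hq.1 hq.2] at h3
        refine ⟨q, ?_, hqx⟩
        rw [mem_union, mem_product, mem_product]
        simp only [mem_erase, mem_singleton, mem_compl]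
        by_cases ha : p.1 = q.1
        · by_cases hb : p.2 = q.2
          · simp [ha, hb] at h3
          · exact Or.inr ⟨ha.symm, Ne.symm hb, hq.2⟩
        · by_cases hb : p.2 = q.2
          · exact Or.inl ⟨⟨Ne.symm ha, hq.1⟩, hb.symm⟩
          · simp [ha, hb] at h3
      · rintro ⟨q, hq, hqx⟩
        rw [mem_union, mem_product, mem_product] at hq
        simp only [mem_erase, mem_singleton, mem_compl] at hq
        have hq' : q.1 ∈ s.1 ∧ q.2 ∉ s.1 := by
          rcases hq with ⟨⟨_, h2⟩, h3⟩ | ⟨h1, h2, h3⟩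
          · rw [h3]; exact ⟨h2, hp.2⟩
          · rw [h1]; exact ⟨hp.1, h3⟩
        refine ⟨⟨q, by rw [mem_product, mem_compl]; exact hq', hqx⟩, ?_⟩
        show (u.1 \ x.1).card = 1
        rw [← hpu, ← hqx, swp_sdiff_swp hp.1 hp.2 hq'.1 hq'.2]
        rcases hq with ⟨⟨h1, _⟩, h3⟩ | ⟨h1, h2, _⟩
        · rw [if_neg (Ne.symm h1), if_pos h3.symm]
        · rw [if_pos h1.symm, if_neg (Ne.symm h2)]

lemma Ex.johnson (t m : ℕ) (hm : m ≤ t + 2) : Ex (m * (t + 2 - m)) t := by
  have : Nonempty {s : Finset (Fin (t + 2)) // s.card = m} := by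
    obtain ⟨s, -, hs⟩ := exists_subset_card_eq (s := (univ : Finset (Fin (t + 2)))) (n := m)
      (by simpa using hm)
    exact ⟨⟨s, hs⟩⟩
  have h := isKT_johnson (t + 2) m hm
  exact Ex.of h

end Pool.Agent.KTR
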