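import Mathlib

/-!
Existence of a positive conserved flow of the form `g w / g v` on a finite layered digraph,
by minimising the energy `∑ g w / g v`.
-/

namespace Pool.Agent.KTR

open Finset

open Classical in
/-- The energy of a potential. -/
noncomputable def energy {V : Type*} (I : Finset V) (R : V → V → Prop) (φ : V → ℝ) : ℝ :=
  ∑ a ∈ I, ∑ b ∈ I, if R a b then Real.exp (φ b - φ a) else 0

variable {V : Type*}

open Classical in
lemma energy_term_le (I : Finset V) (R : V → V → Prop) (φ : V → ℝ) {a b : V} (ha : a ∈ I)
    (hb : b ∈ I) (hab : R a b) : Real.exp (φ b - φ a) ≤ energy I R φ := by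
  have h1 : (if R a b then Real.exp (φ b - φ a) else 0)
      ≤ ∑ b ∈ I, if R a b then Real.exp (φ b - φ a) else 0 :=
    single_le_sum (f := fun b => if R a b then Real.exp (φ b - φ a) else 0)
      (fun x _ => by positivity) hb
  have h2 : (∑ b ∈ I, if R a b then Real.exp (φ b - φ a) else 0) ≤ energy I R φ :=
    single_le_sum (f := fun a => ∑ b ∈ I, if R a b then Real.exp (φ b - φ a) else 0)
      (fun x _ => sum_nonneg (fun y _ => by positivity)) ha
  rw [if_pos hab] at h1
  exact h1.trans h2

lemma energy_nonneg (I : Finset V) (R : V → V → Prop) (φ : V → ℝ) : 0 ≤ energy I R φ := by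
  unfold energy
  exact sum_nonneg (fun a _ => sum_nonneg (fun b _ => by split_ifs <;> positivity))

lemma continuous_energy (I : Finset V) (R : V → V → Prop) : Continuous (energy I R) := by
  unfold energy
  refine continuous_finsetSum _ (fun a _ => continuous_finsetSum _ (fun b _ => ?_))
  by_cases h : R a b
  · simp only [if_pos h]
    exact Real.continuous_exp.comp ((continuous_apply b).sub (continuous_apply a))
  · simp only [if_neg h]; exact continuous_const

/-- Layered digraph hypotheses. -/
structure Lay {V : Type*} (I : Finset V) (R : V → V → Prop) (L : V → ℕ) (n : ℕ) (o o' : V) :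
    Prop where
  left : ∀ a b, R a b → a ∈ I
  right : ∀ a b, R a b → b ∈ I
  lev : ∀ a b, R a b → L b = L a + 1
  le : ∀ v ∈ I, L v ≤ n
  inn : ∀ v ∈ I, v ≠ o → ∃ u, R u v
  out : ∀ v ∈ I, v ≠ o' → ∃ w, R v w

lemma Lay.upper {I : Finset V} {R : V → V → Prop} {L : V → ℕ} {n : ℕ} {o o' : V}
    (h : Lay I R L n o o') (φ : V → ℝ) (h0 : φ o = 0) (E : ℝ) (hE : energy I R φ ≤ E) :
    ∀ m v, v ∈ I → L v = m → φ v ≤ m * E := by
  have hE0 : 0 ≤ E := (energy_nonneg I R φ).trans hE
  intro m
  induction m with
  | zero =>
    intro v hv hL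
    by_cases hvo : v = o
    · subst hvo; simp [h0]
    · obtain ⟨u, hu⟩ := h.inn v hv hvo
      have := h.lev u v hu
      omega
  | succ m ih =>
    intro v hv hL
    by_cases hvo : v = o
    · subst hvo; rw [h0]; positivity
    · obtain ⟨u, hu⟩ := h.inn v hv hvo
      have h1 := h.lev u v hu
      have h2 := ih u (h.left _ _ hu) (by omega)
      have h3 := (energy_term_le I R φ (h.left _ _ hu) hv hu).trans hE
      have h4 := Real.add_one_le_exp (φ v - φ u)
      push_cast
      linarith

lemma Lay.lower {I : Finset V} {R : V → V → Prop} {L : V → ℕ} {n : ℕ} {o o' : V}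
    (h : Lay I R L n o o') (φ : V → ℝ) (h0 : φ o' = 0) (E : ℝ) (hE : energy I R φ ≤ E) :
    ∀ m v, v ∈ I → n - L v = m → -(m * E) ≤ φ v := by
  have hE0 : 0 ≤ E := (energy_nonneg I R φ).trans hE
  intro m
  induction m with
  | zero =>
    intro v hv hL
    by_cases hvo : v = o'
    · subst hvo; simp [h0]
    · obtain ⟨w, hw⟩ := h.out v hv hvo
      have h1 := h.lev v w hw
      have h2 := h.le w (h.right _ _ hw)
      omega
  | succ m ih =>
    intro v hv hL
    by_cases hvo : v = o'
    · subst hvo; rw [h0]
      have : 0 ≤ ((m + 1 : ℕ) : ℝ) * E := by positivity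
      linarith
    · obtain ⟨w, hw⟩ := h.out v hv hvo
      have h1 := h.lev v w hw
      have h2 := ih w (h.right _ _ hw) (by omega)
      have h3 := (energy_term_le I R φ hv (h.right _ _ hw) hw).trans hE
      have h4 := Real.add_one_le_exp (φ w - φ v)
      push_cast
      linarith

open Classical in
/-- Changing the potential at one vertex. -/
lemma energy_update {I : Finset V} {R : V → V → Prop} (hirr : ∀ a, ¬ R a a) (φ : V → ℝ) (v : V)
    (hv : v ∈ I) (s : ℝ) :
    energy I R (Function.update φ v (φ v + s)) - energy I R φ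
      = (Real.exp s - 1) * (∑ u ∈ I, if R u v then Real.exp (φ v - φ u) else 0)
        + (Real.exp (-s) - 1) * (∑ w ∈ I, if R v w then Real.exp (φ w - φ v) else 0) := by
  have key : ∀ a b, (if R a b then Real.exp (Function.update φ v (φ v + s) b
        - Function.update φ v (φ v + s) a) else 0) - (if R a b then Real.exp (φ b - φ a) else 0)
      = (if b = v then (Real.exp s - 1) * (if R a b then Real.exp (φ b - φ a) else 0) else 0)
        + (if a = v then (Real.exp (-s) - 1) * (if R a b then Real.exp (φ b - φ a) else 0)
          else 0) := by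
    intro a b
    by_cases hR : R a b
    · simp only [if_pos hR]
      by_cases hb : b = v
      · have ha : a ≠ v := by rintro rfl; subst hb; exact hirr _ hR
        subst hb
        rw [Function.update_self, Function.update_of_ne ha, if_pos rfl, if_neg ha,
          show φ b + s - φ a = s + (φ b - φ a) by ring, Real.exp_add]
        ring
      · by_cases ha : a = v
        · subst ha
          rw [Function.update_self, Function.update_of_ne hb, if_neg hb, if_pos rfl,
            show φ b - (φ a + s) = -s + (φ b - φ a) by ring, Real.exp_add]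
          ring
        · rw [Function.update_of_ne ha, Function.update_of_ne hb, if_neg hb, if_neg ha]
          ring
    · simp [if_neg hR]
  unfold energy
  rw [← sum_sub_distrib]
  simp_rw [← sum_sub_distrib, key, sum_add_distrib]
  congr 1
  · rw [mul_sum]
    apply sum_congr rfl
    intro a _
    rw [sum_ite_eq' I v]
    simp [hv]
  · rw [sum_comm, mul_sum]
    apply sum_congr rfl
    intro b _
    rw [sum_ite_eq' I v]
    simp [hv]

open Classical in
theorem Lay.exists_flow {I : Finset V} {R : V → V → Prop} {L : V → ℕ} {n : ℕ} {o o' : V}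
    (h : Lay I R L n o o') :
    ∃ g : V → ℝ, (∀ v, 0 < g v) ∧ ∀ v ∈ I, v ≠ o → v ≠ o' →
      (∑ w ∈ I, if R v w then g w / g v else 0) = ∑ u ∈ I, if R u v then g v / g u else 0 := by
  have hirr : ∀ a, ¬ R a a := by
    intro a ha
    have := h.lev a a ha
    omega
  set E := energy I R (fun _ => 0) with hE
  have hE0 : 0 ≤ E := energy_nonneg I R _
  set M := (n : ℝ) * E with hM
  have hM0 : 0 ≤ M := by positivity
  set B : V → Set ℝ := fun v => if v ∈ I ∧ v ≠ o ∧ v ≠ o' then Set.Icc (-M) M else {0} with hB
  have hcomp : IsCompact (Set.univ.pi B) := by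
    apply isCompact_univ_pi
    intro v
    simp only [hB]
    split_ifs
    · exact isCompact_Icc
    · exact isCompact_singleton
  have hne : (Set.univ.pi B).Nonempty := by
    refine ⟨fun _ => 0, ?_⟩
    intro v _
    simp only [hB]
    split_ifs
    · exact ⟨by linarith, hM0⟩
    · rfl
  obtain ⟨φ, hφB, hmin⟩ := hcomp.exists_isMinOn hne (continuous_energy I R).continuousOn
  have h0mem : (fun _ : V => (0 : ℝ)) ∈ Set.univ.pi B := by
    intro v _
    simp only [hB]
    split_ifs
    · exact ⟨by linarith, hM0⟩
    · rfl
  have hφE : energy I R φ ≤ E := hmin h0mem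
  have hφo : φ o = 0 := by
    have := hφB o (Set.mem_univ o)
    simpa [hB] using this
  have hφo' : φ o' = 0 := by
    have := hφB o' (Set.mem_univ o')
    simpa [hB] using this
  refine ⟨fun v => Real.exp (φ v), fun v => Real.exp_pos _, ?_⟩
  intro v hv hvo hvo'
  -- global minimality in direction v
  have hglob : ∀ s : ℝ, energy I R φ ≤ energy I R (Function.update φ v (φ v + s)) := by
    intro s
    by_contra hlt
    push Not at hlt
    have hle : energy I R (Function.update φ v (φ v + s)) ≤ E := hlt.le.trans hφE
    have ho : Function.update φ v (φ v + s) o = 0 := by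
      rw [Function.update_of_ne (Ne.symm hvo), hφo]
    have ho' : Function.update φ v (φ v + s) o' = 0 := by
      rw [Function.update_of_ne (Ne.symm hvo'), hφo']
    have hmem : Function.update φ v (φ v + s) ∈ Set.univ.pi B := by
      intro x _
      by_cases hx : x = v
      · subst hx
        simp only [hB]
        rw [if_pos ⟨hv, hvo, hvo'⟩]
        have h1 := h.upper _ ho E hle (L x) x hv rfl
        have h2 := h.lower _ ho' E hle (n - L x) x hv rfl
        have h3 := h.le x hv
        have h4 : ((L x : ℕ) : ℝ) * E ≤ M := by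
          apply mul_le_mul_of_nonneg_right _ hE0
          exact_mod_cast h3
        have h5 : ((n - L x : ℕ) : ℝ) * E ≤ M := by
          apply mul_le_mul_of_nonneg_right _ hE0
          exact_mod_cast Nat.sub_le _ _
        exact ⟨by linarith, by linarith⟩
      · rw [Function.update_of_ne hx]
        exact hφB x (Set.mem_univ x)
    exact absurd (hmin hmem) (not_le.2 hlt)
  set a := ∑ u ∈ I, (if R u v then Real.exp (φ v - φ u) else 0) with ha
  set b := ∑ w ∈ I, (if R v w then Real.exp (φ w - φ v) else 0) with hb
  have hapos : 0 < a := by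
    obtain ⟨u, hu⟩ := h.inn v hv hvo
    have h1 : (if R u v then Real.exp (φ v - φ u) else 0) ≤ a :=
      single_le_sum (f := fun u => if R u v then Real.exp (φ v - φ u) else 0)
        (fun x _ => by positivity) (h.left _ _ hu)
    rw [if_pos hu] at h1
    exact (Real.exp_pos _).trans_le h1
  have hb0 : 0 ≤ b := sum_nonneg (fun x _ => by positivity)
  have hx : 0 < (a + b) / (2 * a) := by positivity
  have h1 := hglob (Real.log ((a + b) / (2 * a)))
  have h2 := energy_update (I := I) hirr φ v hv (Real.log ((a + b) / (2 * a)))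
  rw [Real.exp_neg, Real.exp_log hx, ← ha, ← hb] at h2
  have h3 : ((a + b) / (2 * a) - 1) * a + (((a + b) / (2 * a))⁻¹ - 1) * b
      = -((a - b) ^ 2 / (2 * (a + b))) := by
    have : a + b ≠ 0 := by positivity
    field_simp
    ring
  rw [h3] at h2
  have h4 : (a - b) ^ 2 / (2 * (a + b)) ≤ 0 := by linarith
  have h5 : (a - b) ^ 2 ≤ 0 := by
    rw [div_le_iff₀ (by positivity)] at h4
    linarith
  have hab : a = b := by nlinarith [sq_nonneg (a - b)]
  simp_rw [← Real.exp_sub]
  rw [← ha, ← hb, hab]

end Pool.Agent.KTR
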