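import Pool.Agent.KTR.Ex

/-!
Gluing lemma: graphs on a common finite vertex set, each with every edge in exactly `t`
triangles, with constant total degree `k`, give a finite (k,t)-regular graph.
-/

namespace Pool.Agent.KTR

open Finset

/-- Every edge of `G` is in exactly `t` triangles. -/
def Tight {V : Type*} (G : SimpleGraph V) (t : ℕ) : Prop :=
  ∀ v w, G.Adj v w → (G.neighborSet v ∩ G.neighborSet w).encard = t

section

variable {ι B : Type} [DecidableEq ι] [DecidableEq B]

/-- Basis vector. -/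
def ev (i : ι) (b : B) : ι × B → ZMod 2 := fun p => if p = (i, b) then 1 else 0

lemma ev_self (i : ι) (b : B) : ev i b (i, b) = 1 := by simp [ev]

lemma ev_ne (i j : ι) (b c : B) (h : b ≠ c) : ev i b (j, c) = 0 := by
  simp [ev, h.symm]

lemma ev_ne' (i j : ι) (b c : B) (h : i ≠ j) : ev i b (j, c) = 0 := by
  simp [ev, h.symm]

lemma add_self_zero (x : ι × B → ZMod 2) : x + x = 0 := by
  ext p
  simp only [Pi.add_apply, Pi.zero_apply]
  exact CharTwo.add_self_eq_zero _

/-- The glued graph. -/
def glue (P : ι → SimpleGraph B) : SimpleGraph (B × (ι × B → ZMod 2)) where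
  Adj v w := ∃ i, (P i).Adj v.1 w.1 ∧ w.2 = v.2 + (ev i v.1 + ev i w.1)
  symm := ⟨by
    rintro ⟨b, g⟩ ⟨c, h⟩ ⟨i, h1, h2⟩
    refine ⟨i, h1.symm, ?_⟩
    simp only at h2 ⊢
    rw [h2, add_assoc, add_comm (ev i c) (ev i b), add_self_zero, add_zero]⟩
  loopless := ⟨by
    rintro ⟨b, g⟩ ⟨i, h1, _⟩
    exact (P i).loopless.irrefl _ h1⟩

lemma glue_isKT [Fintype ι] [Fintype B] (P : ι → SimpleGraph B) (k t : ℕ)
    (hP : ∀ i, Tight (P i) t) (hk : ∀ b, {p : ι × B | (P p.1).Adj b p.2}.encard = k) :
    IsKT (glue P) k t := by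
  constructor
  · rintro ⟨b, g⟩
    have e : (glue P).neighborSet (b, g)
        = (fun p : ι × B => (p.2, g + (ev p.1 b + ev p.1 p.2))) ''
          {p : ι × B | (P p.1).Adj b p.2} := by
      ext ⟨c, h⟩
      simp only [SimpleGraph.mem_neighborSet, glue, Set.mem_image, Set.mem_ofPred_eq,
        Prod.exists, Prod.mk.injEq]
      constructor
      · rintro ⟨i, h1, h2⟩
        exact ⟨i, c, h1, rfl, h2.symm⟩
      · rintro ⟨i, d, h1, rfl, h2⟩
        exact ⟨i, h1, h2.symm⟩
    rw [e, Set.InjOn.encard_image, hk]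
    rintro ⟨i, c⟩ h1 ⟨j, d⟩ h2 h3
    simp only [Set.mem_ofPred_eq] at h1 h2
    simp only [Prod.mk.injEq, add_right_inj] at h3
    obtain ⟨rfl, h4⟩ := h3
    have h5 := congrFun h4 (i, b)
    have hbc : c ≠ b := h1.ne.symm
    simp only [Pi.add_apply] at h5
    rw [ev_self, ev_ne i i c b hbc, ev_ne j i c b hbc, add_zero, add_zero] at h5
    by_cases hij : i = j
    · rw [hij]
    · rw [ev_ne' j i b b (Ne.symm hij)] at h5
      exact absurd h5 one_ne_zero
  · rintro ⟨b, g⟩ ⟨c, h⟩ ⟨i, h1, h2⟩
    simp only at h1 h2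
    have e : (glue P).neighborSet (b, g) ∩ (glue P).neighborSet (c, h)
        = (fun d : B => (d, g + (ev i b + ev i d))) ''
          ((P i).neighborSet b ∩ (P i).neighborSet c) := by
      ext ⟨d, f⟩
      simp only [SimpleGraph.mem_neighborSet, glue, Set.mem_image, Set.mem_inter_iff,
        Prod.mk.injEq]
      constructor
      · rintro ⟨⟨j, h3, h4⟩, ⟨l, h5, h6⟩⟩
        have hbd : b ≠ d := h3.ne
        have hcd : c ≠ d := h5.ne
        have hbc : b ≠ c := h1.ne
        rw [h4, h2, add_assoc, add_right_inj] at h6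
        have e1 := congrFun h6 (i, b)
        have e2 := congrFun h6 (l, d)
        simp only [Pi.add_apply] at e1 e2
        rw [ev_ne j i d b hbd.symm, ev_self, ev_ne i i c b hbc.symm, ev_ne l i c b hbc.symm,
          ev_ne l i d b hbd.symm] at e1
        rw [ev_ne j l b d hbd, ev_ne i l b d hbd, ev_ne i l c d hcd, ev_ne l l c d hcd,
          ev_self] at e2
        have hji : j = i := by
          by_contra hne
          rw [ev_ne' j i b b hne] at e1
          simp at e1
        have hjl : j = l := by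
          by_contra hne
          rw [ev_ne' j l d d hne] at e2
          simp at e2
        subst hji; subst hjl
        exact ⟨d, ⟨h3, h5⟩, rfl, h4.symm⟩
      · rintro ⟨d', ⟨h3, h4⟩, rfl, h5⟩
        refine ⟨⟨i, h3, h5.symm⟩, ⟨i, h4, ?_⟩⟩
        rw [← h5, h2, add_assoc, add_right_inj]
        have : ev i b + ev i c + (ev i c + ev i d') = ev i b + (ev i c + ev i c) + ev i d' := by
          abel
        rw [this, add_self_zero, add_zero]
    rw [e, Function.Injective.encard_image, hP i b c h1]
    intro x y hxy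
    exact (Prod.mk.injEq _ _ _ _ ▸ hxy).1

lemma Ex.glue [Fintype ι] [Fintype B] [Nonempty B] (P : ι → SimpleGraph B) (k t : ℕ)
    (hP : ∀ i, Tight (P i) t) (hk : ∀ b, {p : ι × B | (P p.1).Adj b p.2}.encard = k) :
    Ex k t := Ex.of (glue_isKT P k t hP hk)

end

/-- Join of an independent set `Z` with a graph `H` supported on `E`. -/
def joinG {B : Type} (H : SimpleGraph B) (Z E : Finset B) (hd : Disjoint Z E) :
    SimpleGraph B where
  Adj v w := H.Adj v w ∨ (v ∈ Z ∧ w ∈ E) ∨ (v ∈ E ∧ w ∈ Z)
  symm := ⟨by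
    rintro v w (h | h | h)
    · exact Or.inl h.symm
    · exact Or.inr (Or.inr ⟨h.2, h.1⟩)
    · exact Or.inr (Or.inl ⟨h.2, h.1⟩)⟩
  loopless := ⟨by
    rintro v (h | h | h)
    · exact H.loopless.irrefl _ h
    · exact (disjoint_left.1 hd) h.1 h.2
    · exact (disjoint_left.1 hd) h.2 h.1⟩

section join

variable {B : Type} [DecidableEq B] {H : SimpleGraph B} {Z E : Finset B} {hd : Disjoint Z E}
  {t : ℕ}

lemma joinG_nbr_Z (hsup : ∀ x y, H.Adj x y → x ∈ E) {z : B} (hz : z ∈ Z) :
    (joinG H Z E hd).neighborSet z = E := by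
  have hzE : z ∉ E := disjoint_left.1 hd hz
  ext w
  simp only [SimpleGraph.mem_neighborSet, joinG, mem_coe]
  constructor
  · rintro (h | h | h)
    · exact absurd (hsup _ _ h) hzE
    · exact h.2
    · exact absurd h.1 hzE
  · intro h; exact Or.inr (Or.inl ⟨hz, h⟩)

lemma joinG_nbr_E {x : B} (hx : x ∈ E) :
    (joinG H Z E hd).neighborSet x = H.neighborSet x ∪ Z := by
  have hxZ : x ∉ Z := fun h => disjoint_left.1 hd h hx
  ext w
  simp only [SimpleGraph.mem_neighborSet, joinG, Set.mem_union, mem_coe]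
  constructor
  · rintro (h | h | h)
    · exact Or.inl h
    · exact absurd h.1 hxZ
    · exact Or.inr h.2
  · rintro (h | h)
    · exact Or.inl h
    · exact Or.inr (Or.inr ⟨hx, h⟩)

lemma joinG_nbr_other (hsup : ∀ x y, H.Adj x y → x ∈ E) {x : B} (hx : x ∉ E) (hx' : x ∉ Z) :
    (joinG H Z E hd).neighborSet x = ∅ := by
  ext w
  simp only [SimpleGraph.mem_neighborSet, joinG, Set.mem_empty_iff_false, iff_false]
  rintro (h | h | h)
  · exact hx (hsup _ _ h)
  · exact hx' h.1
  · exact hx h.1

lemma joinG_tight (hsup : ∀ x y, H.Adj x y → x ∈ E)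
    (htri : ∀ x y z, H.Adj x y → H.Adj y z → H.Adj x z → False)
    (hreg : ∀ x ∈ E, (H.neighborSet x).encard = t) (hZ : Z.card = t) :
    Tight (joinG H Z E hd) t := by
  have key : ∀ z ∈ Z, ∀ x ∈ E, ((joinG H Z E hd).neighborSet z
      ∩ (joinG H Z E hd).neighborSet x).encard = t := by
    intro z hz x hx
    rw [joinG_nbr_Z hsup hz, joinG_nbr_E hx]
    have : (E : Set B) ∩ (H.neighborSet x ∪ Z) = H.neighborSet x := by
      ext w
      simp only [Set.mem_inter_iff, mem_coe, Set.mem_union, SimpleGraph.mem_neighborSet]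
      constructor
      · rintro ⟨h1, h2 | h2⟩
        · exact h2
        · exact absurd h1 (disjoint_left.1 hd h2)
      · intro h; exact ⟨hsup _ _ h.symm, Or.inl h⟩
    rw [this, hreg x hx]
  rintro v w (h | h | h)
  · have hv := hsup _ _ h
    have hw := hsup _ _ h.symm
    rw [joinG_nbr_E hv, joinG_nbr_E hw]
    have : (H.neighborSet v ∪ (Z : Set B)) ∩ (H.neighborSet w ∪ Z) = Z := by
      ext u
      simp only [Set.mem_inter_iff, mem_coe, Set.mem_union, SimpleGraph.mem_neighborSet]
      constructor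
      · rintro ⟨h1 | h1, h2 | h2⟩
        · exact absurd h1 (fun h1 => htri v w u h h2 h1)
        · exact h2
        · exact h1
        · exact h1
      · intro h1; exact ⟨Or.inr h1, Or.inr h1⟩
    rw [this, Set.encard_coe_eq_coe_finsetCard, hZ]
  · exact key v h.1 w h.2
  · rw [Set.inter_comm]; exact key w h.2 v h.1

lemma joinG_deg (hsup : ∀ x y, H.Adj x y → x ∈ E)
    (hreg : ∀ x ∈ E, (H.neighborSet x).encard = t) (hZ : Z.card = t) (b : B) :
    ((joinG H Z E hd).neighborSet b).encard
      = ((if b ∈ Z then E.card else if b ∈ E then 2 * t else 0 : ℕ) : ℕ∞) := by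
  by_cases hz : b ∈ Z
  · rw [if_pos hz, joinG_nbr_Z hsup hz, Set.encard_coe_eq_coe_finsetCard]
  · rw [if_neg hz]
    by_cases hx : b ∈ E
    · rw [if_pos hx, joinG_nbr_E hx, Set.encard_union_eq, hreg b hx,
        Set.encard_coe_eq_coe_finsetCard, hZ]
      · push_cast; ring
      · rw [Set.disjoint_left]
        intro w hw hw'
        exact disjoint_left.1 hd hw' (hsup _ _ (SimpleGraph.Adj.symm hw))
    · rw [if_neg hx, joinG_nbr_other hsup hx hz]; simp

end join

/-- Bipartite circulant graph. -/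
def bipG (m t : ℕ) : SimpleGraph (Bool × ZMod m) where
  Adj v w := (v.1 = false ∧ w.1 = true ∧ (w.2 - v.2).val < t) ∨
    (v.1 = true ∧ w.1 = false ∧ (v.2 - w.2).val < t)
  symm := ⟨by
    rintro v w (h | h)
    · exact Or.inr ⟨h.2.1, h.1, h.2.2⟩
    · exact Or.inl ⟨h.2.1, h.1, h.2.2⟩⟩
  loopless := ⟨by
    rintro v (h | h)
    · rw [h.1] at h; simp at h
    · rw [h.1] at h; simp at h⟩

lemma card_val_lt (m t : ℕ) [NeZero m] (h : t ≤ m) :
    (univ.filter (fun c : ZMod m => c.val < t)).card = t := by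
  have : univ.filter (fun c : ZMod m => c.val < t) = (range t).image (fun a : ℕ => (a : ZMod m)) := by
    ext c
    simp only [mem_filter, mem_univ, true_and, mem_image, mem_range]
    constructor
    · intro hc; exact ⟨c.val, hc, ZMod.natCast_zmod_val c⟩
    · rintro ⟨a, ha, rfl⟩
      rw [ZMod.val_natCast, Nat.mod_eq_of_lt (by omega)]; exact ha
  rw [this, card_image_of_injOn, card_range]
  intro a ha b hb hab
  simp only [coe_range, Set.mem_Iio] at ha hb
  have := congrArg ZMod.val hab
  simp only at this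
  rwa [ZMod.val_natCast, ZMod.val_natCast, Nat.mod_eq_of_lt (by omega),
    Nat.mod_eq_of_lt (by omega)] at this

lemma bipG_deg (m t : ℕ) [NeZero m] (h : t ≤ m) (v : Bool × ZMod m) :
    ((bipG m t).neighborSet v).encard = t := by
  obtain ⟨p, i⟩ := v
  cases p
  · have e : (bipG m t).neighborSet (false, i)
        = (fun c : ZMod m => (true, i + c)) ''
          ((univ.filter (fun c : ZMod m => c.val < t) : Finset (ZMod m)) : Set (ZMod m)) := by
      ext ⟨q, j⟩
      simp only [SimpleGraph.mem_neighborSet, bipG, Set.mem_image, mem_coe, mem_filter, mem_univ,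
        true_and, Prod.mk.injEq]
      constructor
      · rintro (⟨h2, h3⟩ | ⟨h1, _, _⟩)
        · exact ⟨j - i, h3, h2.symm, by ring⟩
        · exact absurd h1 (by simp)
      · rintro ⟨c, hc, h2, h3⟩
        refine Or.inl ⟨h2.symm, ?_⟩
        rw [← h3]; simpa using hc
    rw [e, Function.Injective.encard_image, Set.encard_coe_eq_coe_finsetCard, card_val_lt m t h]
    intro a b hab
    simpa using hab
  · have e : (bipG m t).neighborSet (true, i)
        = (fun c : ZMod m => (false, i - c)) ''
          ((univ.filter (fun c : ZMod m => c.val < t) : Finset (ZMod m)) : Set (ZMod m)) := by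
      ext ⟨q, j⟩
      simp only [SimpleGraph.mem_neighborSet, bipG, Set.mem_image, mem_coe, mem_filter, mem_univ,
        true_and, Prod.mk.injEq]
      constructor
      · rintro (⟨h1, _, _⟩ | ⟨h2, h3⟩)
        · exact absurd h1 (by simp)
        · exact ⟨i - j, h3, h2.symm, by ring⟩
      · rintro ⟨c, hc, h2, h3⟩
        refine Or.inr ⟨h2.symm, ?_⟩
        rw [← h3]; simpa using hc
    rw [e, Function.Injective.encard_image, Set.encard_coe_eq_coe_finsetCard, card_val_lt m t h]
    intro a b hab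
    simpa using hab

/-- A triangle-free `t`-regular graph supported on a given set of even size `2m ≥ 2t`. -/
lemma exists_bip {B : Type} [DecidableEq B] (E : Finset B) (m t : ℕ) (hm : 0 < m)
    (hE : E.card = 2 * m) (ht : t ≤ m) :
    ∃ H : SimpleGraph B, (∀ x y, H.Adj x y → x ∈ E) ∧
      (∀ x y z, H.Adj x y → H.Adj y z → H.Adj x z → False) ∧
      (∀ x ∈ E, (H.neighborSet x).encard = t) := by
  have : NeZero m := ⟨by omega⟩
  have hcard : Fintype.card (Bool × ZMod m) = Fintype.card E := by
    rw [Fintype.card_prod, Fintype.card_bool, ZMod.card, Fintype.card_coe, hE]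
  let e : (Bool × ZMod m) ≃ E := Fintype.equivOfCardEq hcard
  let f : (Bool × ZMod m) ↪ B := e.toEmbedding.trans (Function.Embedding.subtype _)
  have hf : ∀ a, f a ∈ E := fun a => (e a).2
  have hadj : ∀ x y, ((bipG m t).map f).Adj x y ↔ ∃ a b, (bipG m t).Adj a b ∧ f a = x ∧ f b = y :=
    fun x y => by rw [SimpleGraph.map_adj]
  refine ⟨(bipG m t).map f, ?_, ?_, ?_⟩
  · intro x y h
    obtain ⟨a, b, _, rfl, _⟩ := (hadj x y).1 h
    exact hf a
  · intro x y z h1 h2 h3
    obtain ⟨a, b, h4, rfl, rfl⟩ := (hadj _ _).1 h1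
    obtain ⟨b', c, h5, h6, rfl⟩ := (hadj _ _).1 h2
    obtain ⟨a', c', h7, h8, h9⟩ := (hadj _ _).1 h3
    have e1 := f.injective h6
    have e2 := f.injective h8
    have e3 := f.injective h9
    subst e1; subst e2; subst e3
    rcases h4 with h4 | h4 <;> rcases h5 with h5 | h5 <;> rcases h7 with h7 | h7 <;>
      simp_all
  · intro x hx
    obtain ⟨a, ha⟩ := e.surjective ⟨x, hx⟩
    have hfa : f a = x := by
      show ((e a : E) : B) = x
      rw [ha]
    subst hfa
    have : ((bipG m t).map f).neighborSet (f a) = f '' ((bipG m t).neighborSet a) := by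
      ext y
      simp only [SimpleGraph.mem_neighborSet, hadj, Set.mem_image]
      constructor
      · rintro ⟨a', b, h1, h2, h3⟩
        have := f.injective h2
        subst this
        exact ⟨b, h1, h3⟩
      · rintro ⟨b, h1, h2⟩
        exact ⟨a, b, h1, rfl, h2⟩
    rw [this, f.injective.encard_image, bipG_deg m t ht]

end Pool.Agent.KTR
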