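import Pool.Agent.KTR.Glue

/-!
Finite (k,t)-regular graphs exist for all `k ≥ 9t` with `kt` even (and all even `k ≥ 8t`).
-/

namespace Pool.Agent.KTR

open Finset

lemma card_val_Icc (M c : ℕ) [NeZero M] (h : c < M) :
    (univ.filter (fun z : ZMod M => 1 ≤ z.val ∧ z.val ≤ c)).card = c := by
  have : univ.filter (fun z : ZMod M => 1 ≤ z.val ∧ z.val ≤ c)
      = (Icc 1 c).image (fun a : ℕ => (a : ZMod M)) := by
    ext z
    simp only [mem_filter, mem_univ, true_and, mem_image, mem_Icc]
    constructor
    · intro hc; exact ⟨z.val, hc, ZMod.natCast_zmod_val z⟩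
    · rintro ⟨a, ha, rfl⟩
      rw [ZMod.val_natCast, Nat.mod_eq_of_lt (by omega)]; exact ha
  rw [this, card_image_of_injOn, Nat.card_Icc]
  · omega
  intro a ha b hb hab
  simp only [coe_Icc, Set.mem_Icc] at ha hb
  have := congrArg ZMod.val hab
  simp only at this
  rwa [ZMod.val_natCast, ZMod.val_natCast, Nat.mod_eq_of_lt (by omega),
    Nat.mod_eq_of_lt (by omega)] at this

lemma card_sub_left (M c : ℕ) [NeZero M] (h : c < M) (x : ZMod M) :
    (univ.filter (fun q : ZMod M => 1 ≤ (x - q).val ∧ (x - q).val ≤ c)).card = c := by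
  refine (card_bij (fun q _ => x - q) ?_ ?_ ?_).trans (card_val_Icc M c h)
  · intro q hq
    simpa using hq
  · intro a _ b _ hab
    simpa using hab
  · intro z hz
    refine ⟨x - z, ?_, by ring⟩
    simpa using hz

lemma card_sub_right (M c : ℕ) [NeZero M] (h : c < M) (q : ZMod M) :
    (univ.filter (fun x : ZMod M => 1 ≤ (x - q).val ∧ (x - q).val ≤ c)).card = c := by
  refine (card_bij (fun x _ => x - q) ?_ ?_ ?_).trans (card_val_Icc M c h)
  · intro x hx
    simpa using hx
  · intro a _ b _ hab
    simpa using hab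
  · intro z hz
    refine ⟨z + q, ?_, by ring⟩
    simpa using hz

lemma card_val_lt' (M t : ℕ) [NeZero M] (h : t ≤ M) :
    (univ.filter (fun c : ZMod M => t ≤ c.val)).card = M - t := by
  have h1 := card_val_lt M t h
  have h2 := card_filter_add_card_filter_not (s := (univ : Finset (ZMod M))) (fun c => c.val < t)
  simp only [not_lt] at h2
  rw [h1, card_univ, ZMod.card] at h2
  omega

/-- Total degree as a sum. -/
lemma encard_total {ι B : Type} [Fintype ι] [Fintype B] (P : ι → SimpleGraph B) (b : B)
    (d : ι → ℕ) (hd : ∀ i, ((P i).neighborSet b).encard = d i) :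
    {p : ι × B | (P p.1).Adj b p.2}.encard = ((∑ i, d i : ℕ) : ℕ∞) := by
  classical
  have h1 : {p : ι × B | (P p.1).Adj b p.2}
      = ((univ.filter (fun p : ι × B => (P p.1).Adj b p.2) : Finset (ι × B)) : Set _) := by
    ext p; simp
  rw [h1, Set.encard_coe_eq_coe_finsetCard, card_filter, Fintype.sum_prod_type]
  congr 1
  apply sum_congr rfl
  intro i _
  rw [← card_filter]
  have h2 := hd i
  have h3 : (P i).neighborSet b
      = ((univ.filter (fun y : B => (P i).Adj b y) : Finset B) : Set _) := by
    ext p; simp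
  rw [h3, Set.encard_coe_eq_coe_finsetCard] at h2
  exact_mod_cast h2

/-- The number of rows used at column distance: 2 for rows below `u`, 3 for the others. -/
def ep (u j : ℕ) : ℕ := if j < u then 2 else 3

/-- Poles of copy `q`. -/
def Zq (t : ℕ) [NeZero (3 * t)] (q : ZMod (3 * t)) : Finset (ZMod (3 * t) × Fin t) :=
  univ.filter (fun p => p.1 = q)

/-- Equator of copy `q`. -/
def Eq' (t u : ℕ) [NeZero (3 * t)] (q : ZMod (3 * t)) : Finset (ZMod (3 * t) × Fin t) :=
  univ.filter (fun p => 1 ≤ (p.1 - q).val ∧ (p.1 - q).val ≤ ep u p.2.val)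

lemma disj_ZE (t u : ℕ) [NeZero (3 * t)] (q : ZMod (3 * t)) : Disjoint (Zq t q) (Eq' t u q) := by
  rw [disjoint_left]
  intro p hp hp'
  simp only [Zq, Eq', mem_filter, mem_univ, true_and] at hp hp'
  rw [hp, sub_self, ZMod.val_zero] at hp'
  omega

lemma card_Zq (t : ℕ) [NeZero (3 * t)] (q : ZMod (3 * t)) : (Zq t q).card = t := by
  have : Zq t q = ({q} : Finset (ZMod (3 * t))) ×ˢ (univ : Finset (Fin t)) := by
    ext ⟨a, b⟩; simp [Zq, eq_comm]
  rw [this, card_product]; simp

lemma card_Eq' (t u : ℕ) [NeZero (3 * t)] (ht : 2 ≤ t) (hu : u ≤ t) (q : ZMod (3 * t)) :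
    (Eq' t u q).card = 3 * t - u := by
  rw [Eq', card_filter, Fintype.sum_prod_type_right]
  have h1 : ∀ j : Fin t, (∑ x : ZMod (3 * t),
      if 1 ≤ (x - q).val ∧ (x - q).val ≤ ep u j.val then 1 else 0) = ep u j.val := by
    intro j
    rw [← card_filter]
    apply card_sub_right
    unfold ep; split_ifs <;> omega
  simp only
  rw [sum_congr rfl (fun j _ => h1 j)]
  rw [Fin.sum_univ_eq_sum_range (fun j => ep u j) t]
  obtain ⟨v, rfl⟩ := Nat.exists_eq_add_of_le hu
  rw [sum_range_add]
  have e1 : ∑ x ∈ range u, ep u x = u * 2 := by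
    rw [sum_congr rfl (fun x hx => by
      show ep u x = 2
      rw [ep, if_pos (mem_range.1 hx)]), sum_const, card_range, smul_eq_mul]
  have e2 : ∑ x ∈ range v, ep u (u + x) = v * 3 := by
    rw [sum_congr rfl (fun x hx => by
      show ep u (u + x) = 3
      rw [ep, if_neg (by omega)]), sum_const, card_range, smul_eq_mul]
  rw [e1, e2]; omega

/-- Row pieces. -/
def Zr (t : ℕ) [NeZero (3 * t)] (j : Fin t) : Finset (ZMod (3 * t) × Fin t) :=
  univ.filter (fun p => p.2 = j ∧ p.1.val < t)

def Er (t : ℕ) [NeZero (3 * t)] (j : Fin t) : Finset (ZMod (3 * t) × Fin t) :=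
  univ.filter (fun p => p.2 = j ∧ t ≤ p.1.val)

lemma disj_r (t : ℕ) [NeZero (3 * t)] (j : Fin t) : Disjoint (Zr t j) (Er t j) := by
  rw [disjoint_left]
  intro p hp hp'
  simp only [Zr, Er, mem_filter, mem_univ, true_and] at hp hp'
  omega

lemma card_Zr (t : ℕ) [NeZero (3 * t)] (j : Fin t) : (Zr t j).card = t := by
  have : Zr t j = (univ.filter (fun c : ZMod (3 * t) => c.val < t)) ×ˢ ({j} : Finset (Fin t)) := by
    ext ⟨a, b⟩; simp [Zr, and_comm, eq_comm]
  rw [this, card_product, card_val_lt _ _ (by omega)]; simp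

lemma card_Er (t : ℕ) [NeZero (3 * t)] (j : Fin t) : (Er t j).card = 2 * t := by
  have : Er t j = (univ.filter (fun c : ZMod (3 * t) => t ≤ c.val)) ×ˢ ({j} : Finset (Fin t)) := by
    ext ⟨a, b⟩; simp [Er, and_comm, eq_comm]
  rw [this, card_product, card_val_lt' _ _ (by omega)]; simp; omega

/-- The basic construction. -/
theorem ex_basic (t u : ℕ) (ht : 2 ≤ t) (hu : u ≤ t) (hev : Even (3 * t - u)) :
    Ex ((3 * t - u) + 6 * t) t := by
  have : NeZero (3 * t) := ⟨by omega⟩
  have : NeZero t := ⟨by omega⟩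
  obtain ⟨m, hm⟩ := hev
  have hH : ∀ q : ZMod (3 * t), ∃ H : SimpleGraph (ZMod (3 * t) × Fin t),
      (∀ x y, H.Adj x y → x ∈ Eq' t u q) ∧
      (∀ x y z, H.Adj x y → H.Adj y z → H.Adj x z → False) ∧
      (∀ x ∈ Eq' t u q, (H.neighborSet x).encard = t) := fun q =>
    exists_bip (Eq' t u q) m t (by omega) (by rw [card_Eq' t u ht hu]; omega) (by omega)
  choose H hH1 hH2 hH3 using hH
  have hR : ∀ j : Fin t, ∃ H : SimpleGraph (ZMod (3 * t) × Fin t),
      (∀ x y, H.Adj x y → x ∈ Er t j) ∧
      (∀ x y z, H.Adj x y → H.Adj y z → H.Adj x z → False) ∧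
      (∀ x ∈ Er t j, (H.neighborSet x).encard = t) := fun j =>
    exists_bip (Er t j) t t (by omega) (card_Er t j) le_rfl
  choose K hK1 hK2 hK3 using hR
  let P : (ZMod (3 * t) ⊕ Fin t) → SimpleGraph (ZMod (3 * t) × Fin t) := fun i =>
    match i with
    | Sum.inl q => joinG (H q) (Zq t q) (Eq' t u q) (disj_ZE t u q)
    | Sum.inr j => if j.val < u then joinG (K j) (Zr t j) (Er t j) (disj_r t j) else ⊥
  have hPtight : ∀ i, Tight (P i) t := by
    rintro (q | j)
    · exact joinG_tight (hH1 q) (hH2 q) (hH3 q) (card_Zq t q)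
    · show Tight (if j.val < u then joinG (K j) (Zr t j) (Er t j) (disj_r t j) else ⊥) t
      by_cases hj : j.val < u
      · rw [if_pos hj]
        exact joinG_tight (hK1 j) (hK2 j) (hK3 j) (card_Zr t j)
      · rw [if_neg hj]
        intro v w h
        exact absurd h (by simp)
  have hne : Nonempty (ZMod (3 * t) × Fin t) := ⟨(0, 0)⟩
  refine Ex.glue P _ t hPtight ?_
  intro b
  obtain ⟨x, j0⟩ := b
  set n := 3 * t - u with hn
  let d : (ZMod (3 * t) ⊕ Fin t) → ℕ := fun i =>
    match i with
    | Sum.inl q => if (x, j0) ∈ Zq t q then (Eq' t u q).card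
        else if (x, j0) ∈ Eq' t u q then 2 * t else 0
    | Sum.inr j => if j.val < u then (if (x, j0) ∈ Zr t j then (Er t j).card
        else if (x, j0) ∈ Er t j then 2 * t else 0) else 0
  have hd : ∀ i, ((P i).neighborSet (x, j0)).encard = d i := by
    rintro (q | j)
    · exact joinG_deg (hH1 q) (hH3 q) (card_Zq t q) (x, j0)
    · show ((if j.val < u then joinG (K j) (Zr t j) (Er t j) (disj_r t j)
          else ⊥ : SimpleGraph _).neighborSet (x, j0)).encard
        = ((if j.val < u then (if (x, j0) ∈ Zr t j then (Er t j).card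
        else if (x, j0) ∈ Er t j then 2 * t else 0) else 0 : ℕ) : ℕ∞)
      by_cases hj : j.val < u
      · rw [if_pos hj, if_pos hj]
        exact joinG_deg (hK1 j) (hK3 j) (card_Zr t j) (x, j0)
      · rw [if_neg hj, if_neg hj]
        simp
  rw [encard_total P (x, j0) d hd, Fintype.sum_sum_type]
  congr 1
  -- left part
  have hep : ep u j0.val < 3 * t := by unfold ep; split_ifs <;> omega
  have hL : ∑ q : ZMod (3 * t), d (Sum.inl q) = n + ep u j0.val * (2 * t) := by
    have h1 : ∀ q : ZMod (3 * t), d (Sum.inl q)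
        = (if q = x then n else 0)
          + (if 1 ≤ (x - q).val ∧ (x - q).val ≤ ep u j0.val then 2 * t else 0) := by
      intro q
      show (if (x, j0) ∈ Zq t q then (Eq' t u q).card
        else if (x, j0) ∈ Eq' t u q then 2 * t else 0) = _
      have m1 : (x, j0) ∈ Zq t q ↔ q = x := by simp [Zq, eq_comm]
      have m2 : (x, j0) ∈ Eq' t u q ↔ 1 ≤ (x - q).val ∧ (x - q).val ≤ ep u j0.val := by
        simp [Eq']
      by_cases hq : q = x
      · have h0 : ¬ (1 ≤ (x - q).val ∧ (x - q).val ≤ ep u j0.val) := by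
          rw [hq, sub_self, ZMod.val_zero]; omega
        rw [if_pos (m1.2 hq), if_pos hq, card_Eq' t u ht hu, if_neg h0]; rfl
      · rw [if_neg (fun h => hq (m1.1 h)), if_neg hq, zero_add]
        by_cases hE : 1 ≤ (x - q).val ∧ (x - q).val ≤ ep u j0.val
        · rw [if_pos (m2.2 hE), if_pos hE]
        · rw [if_neg (fun h => hE (m2.1 h)), if_neg hE]
    rw [sum_congr rfl (fun q _ => h1 q), sum_add_distrib, sum_ite_eq' univ x, if_pos (mem_univ _),
      ← sum_filter, sum_const, card_sub_left _ _ hep, smul_eq_mul]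
  have hRr : ∑ j : Fin t, d (Sum.inr j) = if j0.val < u then 2 * t else 0 := by
    have h1 : ∀ j : Fin t, d (Sum.inr j)
        = if j = j0 then (if j0.val < u then 2 * t else 0) else 0 := by
      intro j
      show (if j.val < u then (if (x, j0) ∈ Zr t j then (Er t j).card
        else if (x, j0) ∈ Er t j then 2 * t else 0) else 0) = _
      by_cases hj : j = j0
      · subst hj
        rw [if_pos rfl, card_Er]
        by_cases hju : j.val < u
        · rw [if_pos hju, if_pos hju]
          by_cases hx : x.val < t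
          · rw [if_pos (by simp [Zr, hx])]
          · rw [if_neg (by simp [Zr, hx]), if_pos (by simp [Er]; omega)]
        · rw [if_neg hju, if_neg hju]
      · have z1 : (x, j0) ∉ Zr t j := by simp [Zr, Ne.symm hj]
        have z2 : (x, j0) ∉ Er t j := by simp [Er, Ne.symm hj]
        rw [if_neg hj, if_neg z1, if_neg z2]
        simp
    rw [sum_congr rfl (fun j _ => h1 j), sum_ite_eq' univ j0, if_pos (mem_univ _)]
  rw [hL, hRr]
  by_cases hju : j0.val < u
  · rw [if_pos hju, ep, if_pos hju]; ring
  · rw [if_neg hju, ep, if_neg hju]; ring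

theorem ex_linear (k t : ℕ) (hkt : Even (k * t)) (hk : 8 * t ≤ k) (hk' : Odd k → 9 * t ≤ k) :
    Ex k t := by
  rcases Nat.lt_or_ge t 2 with ht | ht
  · -- t = 0 or 1
    rcases Nat.lt_or_ge t 1 with h0 | h1
    · have : t = 0 := by omega
      subst this
      have := (Ex.johnson 0 1 (by norm_num)).mul k
      simpa using this
    · have : t = 1 := by omega
      subst this
      rw [mul_one] at hkt
      obtain ⟨q, hq⟩ := hkt
      have := (Ex.johnson 1 1 (by norm_num)).mul q
      have e : q * (1 * (1 + 2 - 1)) = k := by omega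
      rwa [e] at this
  · -- k - 8t = (t+1) l + e
    obtain ⟨r, hr⟩ := Nat.exists_eq_add_of_le hk
    set l := r / (t + 1) with hl
    set e := r % (t + 1) with he
    have hdm : (t + 1) * l + e = r := Nat.div_add_mod r (t + 1)
    have hlt : e < t + 1 := Nat.mod_lt _ (by omega)
    have hcl : Ex (t + 1) t := by
      have := Ex.johnson t 1 (by omega)
      have e1 : 1 * (t + 2 - 1) = t + 1 := by omega
      rwa [e1] at this
    by_cases hev : Even e
    · -- n = 2t + e
      have h1 := ex_basic t (t - e) ht (by omega) (by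
        have : 3 * t - (t - e) = 2 * t + e := by omega
        rw [this]
        exact (even_two_mul t).add hev)
      have h2 := h1.add (hcl.mul l)
      have e2 : (3 * t - (t - e)) + 6 * t + l * (t + 1) = k := by
        rw [mul_comm l (t + 1)]; omega
      rwa [e2] at h2
    · rw [Nat.not_even_iff_odd] at hev
      -- t is even and l ≥ 1
      have hte : Even t := by
        by_contra hto
        rw [Nat.not_even_iff_odd] at hto
        have hke : Even k := by
          rcases Nat.even_mul.1 hkt with h | h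
          · exact h
          · exact absurd h (Nat.not_even_iff_odd.2 hto)
        have h1 : Even (8 * t + ((t + 1) * l + e)) := by rw [hdm, ← hr]; exact hke
        have h2 : Even (8 * t) := ⟨4 * t, by ring⟩
        have h3 : Even ((t + 1) * l) := (hto.add_odd odd_one).mul_right l
        rw [Nat.even_add] at h1
        have h4 := h1.1 h2
        rw [Nat.even_add] at h4
        exact absurd (h4.1 h3) (Nat.not_even_iff_odd.2 hev)
      have hl1 : 1 ≤ l := by
        by_contra hl0
        have hl0' : l = 0 := Nat.lt_one_iff.1 (not_le.1 hl0)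
        have hre : r = e := by rw [← hdm, hl0']; ring
        have hko : Odd k := by
          rw [hr, hre]
          exact (Even.add_odd ⟨4 * t, by ring⟩ hev)
        have h1 := hk' hko
        have h2 : t ≤ e := by omega
        have h3 : e = t := by omega
        rw [h3] at hev
        exact absurd hte (Nat.not_even_iff_odd.2 hev)
      obtain ⟨l', hl'⟩ := Nat.exists_eq_add_of_le hl1
      obtain ⟨m, hm⟩ := hte
      have hcp : Ex (t + 2) t := by
        have := Ex.multipartite m 2 (by norm_num)
        have e1 : (m + 1) * 2 = t + 2 := by omega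
        have e2 : m * 2 = t := by omega
        rwa [e1, e2] at this
      obtain ⟨e', he'⟩ := hev
      have h1 := ex_basic t (t - 2 * e') ht (by omega) (by
        have : 3 * t - (t - 2 * e') = 2 * t + 2 * e' := by omega
        rw [this]
        exact (even_two_mul t).add (even_two_mul e'))
      have h2 := (h1.add (hcl.mul l')).add hcp
      have e2 : (3 * t - (t - 2 * e')) + 6 * t + l' * (t + 1) + (t + 2) = k := by
        have e3 : (t + 1) * l = l' * (t + 1) + (t + 1) := by rw [hl']; ring
        omega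
      rwa [e2] at h2

end Pool.Agent.KTR
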