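import Mathlib

/-!
Local counting inequalities in a graph with closed neighbourhood data `N`.
-/

namespace Pool.Agent.KTR

open Finset

/-- Working hypotheses: `N v` is the finite neighbourhood of `v`, of size `k`, and adjacent
vertices have exactly `t` common neighbours. -/
structure Nb {V : Type*} [DecidableEq V] (G : SimpleGraph V) (k t : ℕ) (N : V → Finset V) :
    Prop where
  mem : ∀ v w, w ∈ N v ↔ G.Adj v w
  deg : ∀ v, (N v).card = k
  tri : ∀ v w, G.Adj v w → (N v ∩ N w).card = t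

variable {V : Type*} [DecidableEq V] {G : SimpleGraph V} {k t : ℕ} {N : V → Finset V}

/-- Closed neighbourhood. -/
def Cl (N : V → Finset V) (v : V) : Finset V := insert v (N v)

lemma Nb.not_mem_self (h : Nb G k t N) (v : V) : v ∉ N v := by
  rw [h.mem]; exact G.loopless.irrefl v

lemma Nb.card_cl (h : Nb G k t N) (v : V) : (Cl N v).card = k + 1 := by
  rw [Cl, card_insert_of_notMem (h.not_mem_self v), h.deg]

lemma Nb.card_cl_inter (h : Nb G k t N) {v w : V} (hvw : G.Adj v w) :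
    (Cl N v ∩ Cl N w).card = t + 2 := by
  have e : Cl N v ∩ Cl N w = insert v (insert w (N v ∩ N w)) := by
    ext x
    simp only [Cl, mem_inter, mem_insert, h.mem]
    constructor
    · rintro ⟨h1 | h1, h2 | h2⟩
      · exact Or.inl h1
      · exact Or.inl h1
      · exact Or.inr (Or.inl h2)
      · exact Or.inr (Or.inr ⟨h1, h2⟩)
    · rintro (h1 | h1 | h1)
      · subst h1; exact ⟨Or.inl rfl, Or.inr hvw.symm⟩
      · subst h1; exact ⟨Or.inr hvw, Or.inl rfl⟩
      · exact ⟨Or.inr h1.1, Or.inr h1.2⟩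
  have n1 : w ∉ N v ∩ N w := by
    simp only [mem_inter, not_and]; intro _; exact h.not_mem_self w
  have n2 : v ∉ insert w (N v ∩ N w) := by
    simp only [mem_insert, mem_inter, not_or, not_and]
    exact ⟨hvw.ne, fun h1 => absurd h1 (h.not_mem_self v)⟩
  rw [e, card_insert_of_notMem n2, card_insert_of_notMem n1, h.tri v w hvw]

lemma Nb.card_sdiff (h : Nb G k t N) {v w : V} (hvw : G.Adj v w) :
    (Cl N v \ Cl N w).card + (t + 2) = k + 1 := by
  have := card_sdiff_add_card_inter (Cl N v) (Cl N w)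
  rw [h.card_cl_inter hvw, h.card_cl] at this
  exact this

lemma Nb.triangle (h : Nb G k t N) {v a b : V} (hva : G.Adj v a) (hvb : G.Adj v b)
    (hab : G.Adj a b) :
    ((Cl N a ∩ Cl N b) \ Cl N v).card + (Cl N v \ (Cl N a ∪ Cl N b)).card + (t + 2) = k + 1 := by
  have h1 := card_sdiff_add_card_inter (Cl N a ∩ Cl N b) (Cl N v)
  have h2 := card_sdiff_add_card_inter (Cl N v) (Cl N a ∪ Cl N b)
  have h3 := card_union_add_card_inter (Cl N v ∩ Cl N a) (Cl N v ∩ Cl N b)
  rw [h.card_cl_inter hab] at h1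
  rw [h.card_cl, inter_union_distrib_left] at h2
  rw [h.card_cl_inter hva, h.card_cl_inter hvb] at h3
  have e : Cl N v ∩ Cl N a ∩ (Cl N v ∩ Cl N b) = Cl N a ∩ Cl N b ∩ Cl N v := by
    ext x; simp only [mem_inter]; tauto
  rw [e] at h3
  omega

open Classical in
/-- The pair inequality. -/
lemma Nb.pair (h : Nb G k t N) (v : V) (S T : Finset V) (hS : S ⊆ N v) (hT : T ⊆ N v)
    (hST : ∀ a ∈ S, ∀ b ∈ T, a ≠ b ∧ ¬ G.Adj a b)
    (X : V → Finset V) (hX : ∀ a ∈ S, X a ⊆ N a) (hXv : ∀ a ∈ S, ∀ z ∈ X a, z ≠ v ∧ ¬ G.Adj v z)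
    {a b : V} (ha : a ∈ S) (hb : b ∈ S) :
    T.card + ((N v \ (S ∪ T)).filter (fun x => ¬ G.Adj a x ∧ ¬ G.Adj b x)).card
      + (if G.Adj a b then (X a ∩ X b).card else 0) + (t + 2) ≤ k + 1 := by
  have hva : G.Adj v a := (h.mem _ _).1 (hS ha)
  have hvb : G.Adj v b := (h.mem _ _).1 (hS hb)
  set F := (N v \ (S ∪ T)).filter (fun x => ¬ G.Adj a x ∧ ¬ G.Adj b x) with hF
  have hdisj : Disjoint T F := by
    rw [disjoint_left]
    intro x hx hxF
    rw [hF, mem_filter, mem_sdiff, mem_union] at hxF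
    exact hxF.1.2 (Or.inr hx)
  have hsub : T ∪ F ⊆ Cl N v \ (Cl N a ∪ Cl N b) := by
    intro x hx
    rw [mem_union] at hx
    rw [mem_sdiff, mem_union]
    rcases hx with hx | hx
    · refine ⟨mem_insert_of_mem (hT hx), ?_⟩
      rintro (h1 | h1)
      · rw [Cl, mem_insert, h.mem] at h1
        rcases h1 with h1 | h1
        · exact (hST a ha x hx).1 h1.symm
        · exact (hST a ha x hx).2 h1
      · rw [Cl, mem_insert, h.mem] at h1
        rcases h1 with h1 | h1
        · exact (hST b hb x hx).1 h1.symm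
        · exact (hST b hb x hx).2 h1
    · rw [hF, mem_filter, mem_sdiff, mem_union] at hx
      refine ⟨mem_insert_of_mem hx.1.1, ?_⟩
      rintro (h1 | h1)
      · rw [Cl, mem_insert, h.mem] at h1
        rcases h1 with h1 | h1
        · subst h1; exact hx.1.2 (Or.inl ha)
        · exact hx.2.1 h1
      · rw [Cl, mem_insert, h.mem] at h1
        rcases h1 with h1 | h1
        · subst h1; exact hx.1.2 (Or.inl hb)
        · exact hx.2.2 h1
  have hcard : T.card + F.card ≤ (Cl N v \ (Cl N a ∪ Cl N b)).card := by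
    rw [← card_union_of_disjoint hdisj]; exact card_le_card hsub
  by_cases hab : G.Adj a b
  · rw [if_pos hab]
    have hXX : X a ∩ X b ⊆ (Cl N a ∩ Cl N b) \ Cl N v := by
      intro z hz
      rw [mem_inter] at hz
      rw [mem_sdiff, mem_inter]
      refine ⟨⟨mem_insert_of_mem (hX a ha hz.1), mem_insert_of_mem (hX b hb hz.2)⟩, ?_⟩
      intro h1
      rw [Cl, mem_insert, h.mem] at h1
      rcases h1 with h1 | h1
      · exact (hXv a ha z hz.1).1 h1
      · exact (hXv a ha z hz.1).2 h1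
    have h1 := card_le_card hXX
    have h2 := h.triangle hva hvb hab
    omega
  · rw [if_neg hab]
    have h1 : (Cl N v \ (Cl N a ∪ Cl N b)).card ≤ (Cl N v \ Cl N a).card := by
      apply card_le_card
      intro x hx
      rw [mem_sdiff, mem_union, not_or] at hx
      rw [mem_sdiff]; exact ⟨hx.1, hx.2.1⟩
    have h2 := h.card_sdiff hva
    omega

open Classical in
/-- One-sided weighted local inequality. -/
lemma Nb.oneSided (h : Nb G k t N) (v : V) (S T : Finset V) (hS : S ⊆ N v) (hT : T ⊆ N v)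
    (hST : ∀ a ∈ S, ∀ b ∈ T, a ≠ b ∧ ¬ G.Adj a b)
    (X : V → Finset V) (hX : ∀ a ∈ S, X a ⊆ N a) (hXv : ∀ a ∈ S, ∀ z ∈ X a, z ≠ v ∧ ¬ G.Adj v z)
    (e : V → ℝ) (he : ∀ a ∈ S, 0 ≤ e a) :
    (T.card : ℝ) * (∑ a ∈ S, e a) ^ 2
      + ∑ x ∈ N v \ (S ∪ T), (∑ a ∈ S, e a - ∑ a ∈ S, if G.Adj a x then e a else 0) ^ 2
      + ∑ a ∈ S, ∑ b ∈ S, (if G.Adj a b then e a * e b * ((X a ∩ X b).card : ℝ) else 0)
      ≤ ((k : ℝ) - 1 - t) * (∑ a ∈ S, e a) ^ 2 := by
  have hsq : (∑ a ∈ S, e a) ^ 2 = ∑ a ∈ S, ∑ b ∈ S, e a * e b := by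
    rw [sq, sum_mul_sum]
  have hA : ∑ x ∈ N v \ (S ∪ T), (∑ a ∈ S, e a - ∑ a ∈ S, if G.Adj a x then e a else 0) ^ 2
      = ∑ a ∈ S, ∑ b ∈ S, e a * e b *
        (((N v \ (S ∪ T)).filter (fun x => ¬ G.Adj a x ∧ ¬ G.Adj b x)).card : ℝ) := by
    have h1 : ∀ x, (∑ a ∈ S, e a - ∑ a ∈ S, if G.Adj a x then e a else 0) ^ 2
        = ∑ a ∈ S, ∑ b ∈ S, (if ¬ G.Adj a x ∧ ¬ G.Adj b x then e a * e b else 0) := by
      intro x
      have h2 : (∑ a ∈ S, e a - ∑ a ∈ S, if G.Adj a x then e a else 0)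
          = ∑ a ∈ S, (if ¬ G.Adj a x then e a else 0) := by
        rw [← sum_sub_distrib]
        apply sum_congr rfl
        intro a _
        by_cases h3 : G.Adj a x <;> simp [h3]
      rw [h2, sq, sum_mul_sum]
      apply sum_congr rfl; intro a _
      apply sum_congr rfl; intro b _
      by_cases h3 : G.Adj a x <;> by_cases h4 : G.Adj b x <;> simp [h3, h4]
    rw [sum_congr rfl (fun x _ => h1 x), sum_comm]
    apply sum_congr rfl; intro a _
    rw [sum_comm]
    apply sum_congr rfl; intro b _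
    rw [← sum_filter, sum_const, nsmul_eq_mul]
    ring
  rw [hA, hsq, mul_sum, mul_sum, ← sum_add_distrib, ← sum_add_distrib]
  apply sum_le_sum
  intro a ha
  rw [mul_sum, mul_sum, ← sum_add_distrib, ← sum_add_distrib]
  apply sum_le_sum
  intro b hb
  have hp := h.pair v S T hS hT hST X hX hXv ha hb
  have hp' : (T.card : ℝ)
      + (((N v \ (S ∪ T)).filter (fun x => ¬ G.Adj a x ∧ ¬ G.Adj b x)).card : ℝ)
      + (if G.Adj a b then ((X a ∩ X b).card : ℝ) else 0) ≤ (k : ℝ) - 1 - t := by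
    have : ((T.card + ((N v \ (S ∪ T)).filter (fun x => ¬ G.Adj a x ∧ ¬ G.Adj b x)).card
      + (if G.Adj a b then (X a ∩ X b).card else 0) + (t + 2) : ℕ) : ℝ) ≤ ((k + 1 : ℕ) : ℝ) := by
      exact_mod_cast hp
    push_cast at this
    linarith
  have hab : 0 ≤ e a * e b := mul_nonneg (he a ha) (he b hb)
  have := mul_le_mul_of_nonneg_left hp' hab
  calc _ = e a * e b * ((T.card : ℝ)
      + (((N v \ (S ∪ T)).filter (fun x => ¬ G.Adj a x ∧ ¬ G.Adj b x)).card : ℝ)
      + (if G.Adj a b then ((X a ∩ X b).card : ℝ) else 0)) := by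
        by_cases h5 : G.Adj a b <;> simp [h5] <;> ring
    _ ≤ _ := this
    _ = _ := by ring

end Pool.Agent.KTR
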