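import Pool.Agent.KTR.Window

/-!
The window inequality: summation over levels with a geometric tilt.
-/

namespace Pool.Agent.KTR

open Finset

variable {V : Type*} [DecidableEq V] {G : SimpleGraph V} {k t : ℕ} {N : V → Finset V}
  {I : Finset V} {R : V → V → Prop} {L : V → ℕ}

omit [DecidableEq V] in
lemma amgm (g : V → ℝ) (hg : ∀ v, 0 < g v) (u v x w : V) (Y y : ℝ) (hY : 0 ≤ Y) :
    2 * (Y * y) * (g w / g u) ≤ Y * (g v / g u * (g x / g u))
      + Y * y ^ 2 * (g w / g v * (g w / g x)) := by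
  have h1 := hg u; have h2 := hg v; have h3 := hg x; have h4 := hg w
  have h5 : 0 ≤ Y * ((g v * g x / g u - y * g w) ^ 2 / (g v * g x)) := by positivity
  have h6 : Y * ((g v * g x / g u - y * g w) ^ 2 / (g v * g x))
      = Y * (g v / g u * (g x / g u)) + Y * y ^ 2 * (g w / g v * (g w / g x))
        - 2 * (Y * y) * (g w / g u) := by
    field_simp
    ring
  linarith

/-- Level weights. -/
noncomputable def cw (i j : ℕ) (y : ℝ) (l : ℕ) : ℝ := if i < l ∧ l < j then y ^ l else 0
noncomputable def cm (i j : ℕ) (y : ℝ) (l : ℕ) : ℝ := if i < l + 1 ∧ l + 1 < j then y ^ l else 0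
noncomputable def cp (i j : ℕ) (y : ℝ) (l : ℕ) : ℝ := if i + 1 < l ∧ l < j + 1 then y ^ l else 0

open Classical in
lemma sum_Q_le (hG : Geo G I R L) (g : V → ℝ) (hg : ∀ v, 0 < g v) (i j : ℕ) (y : ℝ) (hy : 0 < y) :
    ∑ v ∈ I, cw i j y (L v) * (2 * Qsum G I R g v)
      ≤ ∑ u ∈ I, cm i j y (L u) * Kp G I R g u + ∑ w ∈ I, cp i j y (L w) * Km G I R g w := by
  have e1 : ∑ v ∈ I, cw i j y (L v) * (2 * Qsum G I R g v)
      = ∑ u ∈ I, ∑ v ∈ I, ∑ x ∈ I, ∑ w ∈ I,
        if Sq G R u v x w then 2 * cw i j y (L v) * (g w / g u) else 0 := by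
    rw [sum_comm (s := I) (t := I)]
    apply sum_congr rfl; intro v _
    rw [Qsum, mul_sum, mul_sum]
    apply sum_congr rfl; intro u _
    rw [mul_sum, mul_sum]
    apply sum_congr rfl; intro x _
    rw [mul_sum, mul_sum]
    apply sum_congr rfl; intro w _
    split_ifs <;> ring
  have e2 : ∑ u ∈ I, cm i j y (L u) * Kp G I R g u
      = ∑ u ∈ I, ∑ v ∈ I, ∑ x ∈ I, ∑ w ∈ I,
        if Sq G R u v x w then cm i j y (L u) * (g v / g u * (g x / g u)) else 0 := by
    apply sum_congr rfl; intro u _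
    rw [Kp, mul_sum]
    apply sum_congr rfl; intro v _
    rw [mul_sum]
    apply sum_congr rfl; intro x _
    rw [mul_sum]
    apply sum_congr rfl; intro w _
    split_ifs <;> ring
  have e3 : ∑ w ∈ I, cp i j y (L w) * Km G I R g w
      = ∑ u ∈ I, ∑ v ∈ I, ∑ x ∈ I, ∑ w ∈ I,
        if Sq G R u v x w then cp i j y (L w) * (g w / g v * (g w / g x)) else 0 := by
    have e4 : ∀ w, cp i j y (L w) * Km G I R g w = ∑ u ∈ I, ∑ v ∈ I, ∑ x ∈ I,
        if Sq G R u v x w then cp i j y (L w) * (g w / g v * (g w / g x)) else 0 := by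
      intro w
      rw [Km, mul_sum]
      apply sum_congr rfl; intro u _
      rw [mul_sum]
      apply sum_congr rfl; intro v _
      rw [mul_sum]
      apply sum_congr rfl; intro x _
      split_ifs <;> ring
    rw [sum_congr rfl (fun w _ => e4 w), sum_comm]
    apply sum_congr rfl; intro u _
    rw [sum_comm]
    apply sum_congr rfl; intro v _
    rw [sum_comm]
  rw [e1, e2, e3, ← sum_add_distrib]
  apply sum_le_sum; intro u _
  rw [← sum_add_distrib]
  apply sum_le_sum; intro v _
  rw [← sum_add_distrib]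
  apply sum_le_sum; intro x _
  rw [← sum_add_distrib]
  apply sum_le_sum; intro w _
  by_cases hs : Sq G R u v x w
  · rw [if_pos hs, if_pos hs, if_pos hs]
    have l1 := hG.lev _ _ hs.1
    have l2 := hG.lev _ _ hs.2.2.2.1
    have l3 : L w = L u + 2 := by omega
    by_cases hc : i < L v ∧ L v < j
    · have h1 : cw i j y (L v) = y ^ (L u) * y := by
        rw [cw, if_pos hc, l1, pow_succ]
      have h2 : cm i j y (L u) = y ^ (L u) := by
        rw [cm, if_pos (by omega)]
      have h3 : cp i j y (L w) = y ^ (L u) * y ^ 2 := by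
        rw [cp, if_pos (by omega), l3, pow_add]
      rw [h1, h2, h3]
      exact amgm g hg u v x w (y ^ L u) y (by positivity)
    · have h1 : cw i j y (L v) = 0 := by rw [cw, if_neg hc]
      have h2 : cm i j y (L u) = 0 := by rw [cm, if_neg (by omega)]
      have h3 : cp i j y (L w) = 0 := by rw [cp, if_neg (by omega)]
      rw [h1, h2, h3]; simp
  · rw [if_neg hs, if_neg hs, if_neg hs]; simp

/-- Window inequality. -/
theorem window (h : Nb G k t N) (hG : Geo G I R L) (g : V → ℝ) (hg : ∀ v, 0 < g v)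
    (i j : ℕ) (hij : i < j)
    (hf : ∀ v ∈ I, i ≤ L v → L v ≤ j → finn I R g v = fout I R g v)
    (y : ℝ) (hy : 0 < y) (hkt : k ≤ 2 * t + 1) :
    ∑ v ∈ I.filter (fun v => i < L v ∧ L v < j), y ^ (L v) * (fout I R g v) ^ 2
      ≤ ((k : ℝ) - 1 - t) * (∑ v ∈ I.filter (fun v => L v = i), y ^ (L v) * (fout I R g v) ^ 2
        + ∑ v ∈ I.filter (fun v => L v = j), y ^ (L v) * (fout I R g v) ^ 2) := by
  have hk1 : (1 : ℝ) ≤ 2 * t + 2 - k := by
    have : (k : ℝ) ≤ 2 * t + 1 := by exact_mod_cast hkt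
    linarith
  -- left side
  have s1 : ∑ v ∈ I.filter (fun v => i < L v ∧ L v < j), y ^ (L v) * (fout I R g v) ^ 2
      = ∑ v ∈ I, cw i j y (L v) * (fout I R g v) ^ 2 := by
    rw [sum_filter]
    apply sum_congr rfl; intro v _
    rw [cw]; split_ifs <;> simp
  have s2 : ∑ v ∈ I, cw i j y (L v) * (fout I R g v) ^ 2
      ≤ ∑ v ∈ I, cw i j y (L v) * (2 * Qsum G I R g v - Kp G I R g v - Km G I R g v) := by
    apply sum_le_sum
    intro v hv
    by_cases hc : i < L v ∧ L v < j
    · rw [cw, if_pos hc]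
      apply mul_le_mul_of_nonneg_left _ (by positivity)
      have h1 := local_ineq h hG g hg v (hf v hv (by omega) (by omega))
      nlinarith [sq_nonneg (fout I R g v)]
    · rw [cw, if_neg hc]; simp
  have s3 := sum_Q_le hG g hg i j y hy
  have s4 : ∑ v ∈ I, cw i j y (L v) * (2 * Qsum G I R g v - Kp G I R g v - Km G I R g v)
      = ∑ v ∈ I, cw i j y (L v) * (2 * Qsum G I R g v) - ∑ v ∈ I, cw i j y (L v) * Kp G I R g v
        - ∑ v ∈ I, cw i j y (L v) * Km G I R g v := by
    rw [← sum_sub_distrib, ← sum_sub_distrib]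
    apply sum_congr rfl; intro v _; ring
  have s5 : ∑ u ∈ I, cm i j y (L u) * Kp G I R g u - ∑ v ∈ I, cw i j y (L v) * Kp G I R g v
      ≤ ((k : ℝ) - 1 - t) * ∑ v ∈ I.filter (fun v => L v = i), y ^ (L v) * (fout I R g v) ^ 2 := by
    rw [← sum_sub_distrib, sum_filter, mul_sum]
    apply sum_le_sum
    intro v hv
    have h1 := Kp_le h hG g hg v
    have h2 := Kp_nonneg (G := G) (I := I) (R := R) g hg v
    by_cases hi : L v = i
    · rw [if_pos hi]
      have h3 : cw i j y (L v) = 0 := by rw [cw, if_neg (by omega)]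
      rw [h3, zero_mul, sub_zero]
      rw [cm]
      by_cases h4 : i < L v + 1 ∧ L v + 1 < j
      · rw [if_pos h4]
        have h5 : 0 < y ^ L v := by positivity
        calc y ^ L v * Kp G I R g v ≤ y ^ L v * (((k : ℝ) - 1 - t) * (fout I R g v) ^ 2) :=
              mul_le_mul_of_nonneg_left h1 h5.le
          _ = _ := by ring
      · rw [if_neg h4, zero_mul]
        have h5 : 0 < y ^ L v := by positivity
        have h6 : 0 ≤ ((k : ℝ) - 1 - t) * (fout I R g v) ^ 2 := h2.trans h1
        calc (0 : ℝ) ≤ y ^ L v * (((k : ℝ) - 1 - t) * (fout I R g v) ^ 2) := by positivity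
          _ = _ := by ring
    · rw [if_neg hi, mul_zero]
      have h5 : 0 < y ^ L v := by positivity
      have h7 : cm i j y (L v) ≤ cw i j y (L v) := by
        rw [cm, cw]
        by_cases h8 : i < L v + 1 ∧ L v + 1 < j
        · rw [if_pos h8, if_pos (by omega)]
        · rw [if_neg h8]; split_ifs <;> positivity
      nlinarith
  have s6 : ∑ u ∈ I, cp i j y (L u) * Km G I R g u - ∑ v ∈ I, cw i j y (L v) * Km G I R g v
      ≤ ((k : ℝ) - 1 - t) * ∑ v ∈ I.filter (fun v => L v = j), y ^ (L v) * (fout I R g v) ^ 2 := by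
    rw [← sum_sub_distrib, sum_filter, mul_sum]
    apply sum_le_sum
    intro v hv
    have h1 := Km_le h hG g hg v
    have h2 := Km_nonneg (G := G) (I := I) (R := R) g hg v
    by_cases hi : L v = j
    · rw [hf v hv (by omega) (by omega)] at h1
      rw [if_pos hi]
      have h3 : cw i j y (L v) = 0 := by rw [cw, if_neg (by omega)]
      rw [h3, zero_mul, sub_zero]
      rw [cp]
      by_cases h4 : i + 1 < L v ∧ L v < j + 1
      · rw [if_pos h4]
        have h5 : 0 < y ^ L v := by positivity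
        calc y ^ L v * Km G I R g v ≤ y ^ L v * (((k : ℝ) - 1 - t) * (fout I R g v) ^ 2) :=
              mul_le_mul_of_nonneg_left h1 h5.le
          _ = _ := by ring
      · rw [if_neg h4, zero_mul]
        have h5 : 0 < y ^ L v := by positivity
        have h6 : 0 ≤ ((k : ℝ) - 1 - t) * (fout I R g v) ^ 2 := h2.trans h1
        calc (0 : ℝ) ≤ y ^ L v * (((k : ℝ) - 1 - t) * (fout I R g v) ^ 2) := by positivity
          _ = _ := by ring
    · rw [if_neg hi, mul_zero]
      have h5 : 0 < y ^ L v := by positivity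
      have h7 : cp i j y (L v) ≤ cw i j y (L v) := by
        rw [cp, cw]
        by_cases h8 : i + 1 < L v ∧ L v < j + 1
        · rw [if_pos h8, if_pos (by omega)]
        · rw [if_neg h8]; split_ifs <;> positivity
      nlinarith
  rw [s1, mul_add]
  linarith

end Pool.Agent.KTR
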