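import Pool.Agent.KTR.Seq
import Pool.Agent.KTR.Flow
import Pool.Agent.KTR.Window2

/-!
Bounded diameter of connected (k,t)-regular graphs with `k ≤ 2t+1`.
-/

namespace Pool.Agent.KTR

open Finset

/-- Balls as finsets. -/
def bal {V : Type*} [DecidableEq V] (N : V → Finset V) (o : V) : ℕ → Finset V
  | 0 => {o}
  | r + 1 => (bal N o r).biUnion (Cl N)

variable {V : Type*} [DecidableEq V] {G : SimpleGraph V} {k t : ℕ} {N : V → Finset V}

omit [DecidableEq V] in
lemma step_toward (hc : G.Connected) {v z : V} (hvz : v ≠ z) :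
    ∃ w, G.Adj v w ∧ G.dist w z + 1 = G.dist v z := by
  obtain ⟨p, hp⟩ := hc.exists_walk_length_eq_dist v z
  cases p with
  | nil => exact absurd rfl hvz
  | cons hadj q =>
    rename_i w
    refine ⟨w, hadj, ?_⟩
    have h1 := SimpleGraph.dist_le q
    have h2 := hc.dist_triangle (u := v) (v := w) (w := z)
    have h3 : G.dist v w = 1 := SimpleGraph.dist_eq_one_iff_adj.2 hadj
    rw [SimpleGraph.Walk.length_cons] at hp
    omega

lemma mem_bal (h : Nb G k t N) (hc : G.Connected) (o : V) :
    ∀ r v, G.dist o v ≤ r → v ∈ bal N o r := by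
  intro r
  induction r with
  | zero =>
    intro v hv
    have : o = v := (hc.dist_eq_zero_iff).1 (by omega)
    simp [bal, this]
  | succ r ih =>
    intro v hv
    rw [bal, mem_biUnion]
    by_cases hle : G.dist o v ≤ r
    · exact ⟨v, ih v hle, mem_insert_self _ _⟩
    · have hne : v ≠ o := by
        rintro rfl
        rw [SimpleGraph.dist_self] at hle; omega
      obtain ⟨w, hw1, hw2⟩ := step_toward hc hne
      refine ⟨w, ih w ?_, ?_⟩
      · rw [SimpleGraph.dist_comm (u := o) (v := w)]
        rw [SimpleGraph.dist_comm (u := o) (v := v)] at hv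
        omega
      · exact mem_insert_of_mem ((h.mem _ _).2 hw1.symm)

lemma card_bal (h : Nb G k t N) (o : V) : ∀ r, (bal N o r).card ≤ (k + 1) ^ r := by
  intro r
  induction r with
  | zero => simp [bal]
  | succ r ih =>
    rw [bal]
    calc ((bal N o r).biUnion (Cl N)).card ≤ (bal N o r).card * (k + 1) :=
          card_biUnion_le_card_mul _ _ _ (fun a _ => (h.card_cl a).le)
      _ ≤ (k + 1) ^ r * (k + 1) := Nat.mul_le_mul_right _ ih
      _ = _ := by rw [pow_succ]

/-- The geodesic interval relation. -/
def Rel (G : SimpleGraph V) (I : Finset V) (o : V) (a b : V) : Prop :=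
  a ∈ I ∧ b ∈ I ∧ G.Adj a b ∧ G.dist o b = G.dist o a + 1

lemma dist_adj (hc : G.Connected) {a b : V} (hab : G.Adj a b) (z : V) :
    G.dist z b ≤ G.dist z a + 1 := by
  have h2 := hc.dist_triangle (u := z) (v := a) (w := b)
  have h3 : G.dist a b = 1 := SimpleGraph.dist_eq_one_iff_adj.2 hab
  omega

lemma geo_of (hc : G.Connected) (I : Finset V) (o o' : V)
    (hI : ∀ v, v ∈ I ↔ G.dist o v + G.dist v o' = G.dist o o') :
    Geo G I (Rel G I o) (fun v => G.dist o v) where
  adj := fun a b h => h.2.2.1
  left := fun a b h => h.1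
  right := fun a b h => h.2.1
  lev := fun a b h => h.2.2.2
  far := by
    intro u v w h1 h2
    have e1 := h1.2.2.2
    have e2 := h2.2.2.2
    constructor
    · rintro rfl; omega
    · intro hadj
      have := dist_adj hc hadj o
      omega
  mid := by
    intro u x w hu hw hl h1 h2
    have a1 := dist_adj hc h1 o
    have a2 := dist_adj hc h2 o
    have a3 := dist_adj hc h1.symm o'
    have a4 := dist_adj hc h2.symm o'
    have hu' := (hI u).1 hu
    have hw' := (hI w).1 hw
    have e1 := SimpleGraph.dist_comm (G := G) (u := o') (v := u)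
    have e2 := SimpleGraph.dist_comm (G := G) (u := o') (v := w)
    have e3 := SimpleGraph.dist_comm (G := G) (u := o') (v := x)
    have tr := hc.dist_triangle (u := o) (v := x) (w := o')
    have hx : x ∈ I := by rw [hI]; omega
    exact ⟨⟨hu, hx, h1, by omega⟩, ⟨hx, hw, h2, by omega⟩⟩

lemma lay_of (hc : G.Connected) (I : Finset V) (o o' : V)
    (hI : ∀ v, v ∈ I ↔ G.dist o v + G.dist v o' = G.dist o o') :
    Lay I (Rel G I o) (fun v => G.dist o v) (G.dist o o') o o' where
  left := fun a b h => h.1
  right := fun a b h => h.2.1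
  lev := fun a b h => h.2.2.2
  le := by
    intro v hv
    have := (hI v).1 hv
    omega
  inn := by
    intro v hv hvo
    obtain ⟨u, hu1, hu2⟩ := step_toward hc hvo
    have hv' := (hI v).1 hv
    have e1 := SimpleGraph.dist_comm (G := G) (u := o) (v := u)
    have e2 := SimpleGraph.dist_comm (G := G) (u := o) (v := v)
    have a1 := dist_adj hc hu1 o'
    have e3 := SimpleGraph.dist_comm (G := G) (u := o') (v := u)
    have e4 := SimpleGraph.dist_comm (G := G) (u := o') (v := v)
    have tr := hc.dist_triangle (u := o) (v := u) (w := o')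
    have hu : u ∈ I := by rw [hI]; omega
    exact ⟨u, hu, hv, hu1.symm, by omega⟩
  out := by
    intro v hv hvo
    obtain ⟨w, hw1, hw2⟩ := step_toward hc hvo
    have hv' := (hI v).1 hv
    have a1 := dist_adj hc hw1 o
    have tr := hc.dist_triangle (u := o) (v := w) (w := o')
    have hw : w ∈ I := by rw [hI]; omega
    exact ⟨w, hv, hw, hw1, by omega⟩

lemma sum_sq_le {ι : Type*} (S : Finset ι) (e : ι → ℝ) (he : ∀ a ∈ S, 0 ≤ e a) :
    ∑ a ∈ S, (e a) ^ 2 ≤ (∑ a ∈ S, e a) ^ 2 := by
  rw [sq (∑ a ∈ S, e a), sum_mul]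
  apply sum_le_sum
  intro a ha
  rw [sq]
  exact mul_le_mul_of_nonneg_left (single_le_sum he ha) (he a ha)

section growth

variable {I : Finset V} {R : V → V → Prop} {L : V → ℕ}

open Classical in
lemma arcs_eq (hG : Geo G I R L) (g : V → ℝ) (l : ℕ) :
    ∑ v ∈ I.filter (fun v => L v = l), ∑ w ∈ I, (if R v w then (g w / g v) ^ 2 else 0)
      = ∑ w ∈ I.filter (fun w => L w = l + 1), ∑ v ∈ I, (if R v w then (g w / g v) ^ 2 else 0) := by
  rw [sum_filter, sum_filter, ]
  have e1 : ∀ v ∈ I, (if L v = l then ∑ w ∈ I, (if R v w then (g w / g v) ^ 2 else 0) else 0)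
      = ∑ w ∈ I, (if R v w ∧ L v = l then (g w / g v) ^ 2 else 0) := by
    intro v _
    by_cases h : L v = l
    · simp [h]
    · simp [h]
  have e2 : ∀ w ∈ I, (if L w = l + 1 then ∑ v ∈ I, (if R v w then (g w / g v) ^ 2 else 0) else 0)
      = ∑ v ∈ I, (if R v w ∧ L v = l then (g w / g v) ^ 2 else 0) := by
    intro w _
    by_cases h : L w = l + 1
    · rw [if_pos h]
      apply sum_congr rfl
      intro v _
      by_cases h2 : R v w
      · have := hG.lev _ _ h2
        rw [if_pos h2, if_pos ⟨h2, by omega⟩]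
      · rw [if_neg h2, if_neg (fun h3 => h2 h3.1)]
    · rw [if_neg h]
      symm
      apply sum_eq_zero
      intro v _
      rw [if_neg]
      rintro ⟨h2, h3⟩
      have := hG.lev _ _ h2
      omega
  rw [sum_congr rfl e1, sum_congr rfl e2, sum_comm]

open Classical in
lemma fout_sq_le (h : Nb G k t N) (hG : Geo G I R L) (g : V → ℝ) (v : V) :
    (fout I R g v) ^ 2 ≤ k * ∑ w ∈ I, (if R v w then (g w / g v) ^ 2 else 0) := by
  rw [fout, ← sum_filter, ← sum_filter]
  have h1 := sq_sum_le_card_mul_sum_sq (s := I.filter (fun w => R v w)) (f := fun w => g w / g v)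
  refine h1.trans ?_
  apply mul_le_mul_of_nonneg_right
  · have : (I.filter (fun w => R v w)).card ≤ k := by
      rw [← h.deg v]
      apply card_le_card
      intro w hw
      rw [h.mem]; exact hG.adj _ _ (mem_filter.1 hw).2
    exact_mod_cast this
  · exact sum_nonneg (fun w _ => sq_nonneg _)

open Classical in
lemma finn_sq_le (h : Nb G k t N) (hG : Geo G I R L) (g : V → ℝ) (v : V) :
    (finn I R g v) ^ 2 ≤ k * ∑ u ∈ I, (if R u v then (g v / g u) ^ 2 else 0) := by
  rw [finn, ← sum_filter, ← sum_filter]
  have h1 := sq_sum_le_card_mul_sum_sq (s := I.filter (fun u => R u v)) (f := fun u => g v / g u)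
  refine h1.trans ?_
  apply mul_le_mul_of_nonneg_right
  · have : (I.filter (fun u => R u v)).card ≤ k := by
      rw [← h.deg v]
      apply card_le_card
      intro u hu
      rw [h.mem]; exact (hG.adj _ _ (mem_filter.1 hu).2).symm
    exact_mod_cast this
  · exact sum_nonneg (fun w _ => sq_nonneg _)

open Classical in
lemma le_fout_sq (g : V → ℝ) (hg : ∀ v, 0 < g v) (v : V) :
    ∑ w ∈ I, (if R v w then (g w / g v) ^ 2 else 0) ≤ (fout I R g v) ^ 2 := by
  rw [fout, ← sum_filter, ← sum_filter]
  apply sum_sq_le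
  intro w _
  have := hg w; have := hg v
  positivity

open Classical in
lemma le_finn_sq (g : V → ℝ) (hg : ∀ v, 0 < g v) (v : V) :
    ∑ u ∈ I, (if R u v then (g v / g u) ^ 2 else 0) ≤ (finn I R g v) ^ 2 := by
  rw [finn, ← sum_filter, ← sum_filter]
  apply sum_sq_le
  intro w _
  have := hg w; have := hg v
  positivity

end growth

/-- The diameter bound. -/
theorem dist_bound (k t : ℕ) (hkt : k ≤ 2 * t + 1) : ∃ B : ℕ, ∀ (V : Type*) [DecidableEq V]
    (G : SimpleGraph V) (N : V → Finset V), Nb G k t N → G.Connected → ∀ o o' : V,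
      G.dist o o' ≤ B := by
  obtain ⟨B, hB⟩ := seq_bound ((k : ℝ) + 1) (by
    have : (0 : ℝ) ≤ k := Nat.cast_nonneg k
    linarith)
  refine ⟨B, ?_⟩
  intro V _ G N h hc o o'
  classical
  set n := G.dist o o' with hn
  set I : Finset V := (bal N o n).filter (fun v => G.dist o v + G.dist v o' = n) with hIdef
  have hI : ∀ v, v ∈ I ↔ G.dist o v + G.dist v o' = G.dist o o' := by
    intro v
    rw [hIdef, mem_filter]
    constructor
    · exact fun h1 => h1.2
    · intro h1
      refine ⟨mem_bal h hc o n v ?_, h1⟩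
      omega
  clear_value I
  have hG := geo_of hc I o o' hI
  have hL := lay_of hc I o o' hI
  set R := Rel G I o with hR
  set L : V → ℕ := fun v => G.dist o v with hLdef
  obtain ⟨g, hg, hflow⟩ := hL.exists_flow
  have hcons : ∀ v ∈ I, 1 ≤ L v → L v < n → finn I R g v = fout I R g v := by
    intro v hv h1 h2
    have ho : v ≠ o := by
      rintro rfl
      simp [hLdef] at h1
    have ho' : v ≠ o' := by
      rintro rfl
      simp only [hLdef] at h2
      omega
    exact (hflow v hv ho ho').symm
  have hlevel : ∀ l, l ≤ n → ∃ v ∈ I, L v = l := by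
    intro l
    induction l with
    | zero =>
      intro _
      refine ⟨o, ?_, by simp [hLdef]⟩
      rw [hI]; simp
    | succ l ih =>
      intro hl
      obtain ⟨v, hv, hvl⟩ := ih (by omega)
      have ho' : v ≠ o' := by
        rintro rfl
        simp only [hLdef] at hvl
        omega
      obtain ⟨w, hw⟩ := hL.out v hv ho'
      exact ⟨w, hL.right _ _ hw, by rw [hL.lev _ _ hw, hvl]⟩
  have hfout0 : ∀ v, 0 ≤ fout I R g v := by
    intro v
    unfold fout
    refine sum_nonneg (fun w _ => ?_)
    have := hg v; have := hg w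
    split_ifs <;> positivity
  have hfoutpos : ∀ v ∈ I, v ≠ o' → 0 < fout I R g v := by
    intro v hv hvo
    obtain ⟨w, hw⟩ := hL.out v hv hvo
    have h1 : (if R v w then g w / g v else 0) ≤ fout I R g v := by
      unfold fout
      refine single_le_sum (f := fun w => if R v w then g w / g v else 0) ?_ (hL.right _ _ hw)
      intro x _
      have := hg v; have := hg x
      split_ifs <;> positivity
    rw [if_pos hw] at h1
    have := hg v; have := hg w
    exact lt_of_lt_of_le (by positivity) h1
  set W : ℕ → ℝ := fun l => ∑ v ∈ I.filter (fun v => L v = l), (fout I R g v) ^ 2 with hW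
  have hk0 : (0 : ℝ) ≤ k := Nat.cast_nonneg k
  have hWnn : ∀ l, 0 ≤ W l := fun l => sum_nonneg (fun v _ => sq_nonneg _)
  apply hB n W
  · intro l hl1 hl2
    obtain ⟨v, hv, hvl⟩ := hlevel l hl2.le
    have ho' : v ≠ o' := by
      rintro rfl
      simp only [hLdef] at hvl
      omega
    have h1 := hfoutpos v hv ho'
    have h2 : (fout I R g v) ^ 2 ≤ W l := by
      simp only [hW]
      exact single_le_sum (f := fun v => (fout I R g v) ^ 2) (fun x _ => sq_nonneg _)
        (mem_filter.2 ⟨hv, hvl⟩)
    exact lt_of_lt_of_le (by positivity) h2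
  · intro l hl1 hl2
    have harc := arcs_eq hG g l
    have hin : W (l + 1) = ∑ w ∈ I.filter (fun w => L w = l + 1), (finn I R g w) ^ 2 := by
      simp only [hW]
      apply sum_congr rfl
      intro w hw
      rw [mem_filter] at hw
      rw [hcons w hw.1 (by omega) (by omega)]
    constructor
    · calc W (l + 1) = ∑ w ∈ I.filter (fun w => L w = l + 1), (finn I R g w) ^ 2 := hin
        _ ≤ ∑ w ∈ I.filter (fun w => L w = l + 1),
            (k : ℝ) * ∑ u ∈ I, (if R u w then (g w / g u) ^ 2 else 0) :=
            sum_le_sum (fun w _ => finn_sq_le h hG g w)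
        _ = (k : ℝ) * ∑ v ∈ I.filter (fun v => L v = l), ∑ w ∈ I,
            (if R v w then (g w / g v) ^ 2 else 0) := by rw [← mul_sum, harc]
        _ ≤ (k : ℝ) * W l := by
            apply mul_le_mul_of_nonneg_left _ hk0
            exact sum_le_sum (fun v _ => le_fout_sq g hg v)
        _ ≤ ((k : ℝ) + 1) * W l := by
            apply mul_le_mul_of_nonneg_right _ (hWnn l)
            linarith
    · calc W l ≤ ∑ v ∈ I.filter (fun v => L v = l),
            (k : ℝ) * ∑ w ∈ I, (if R v w then (g w / g v) ^ 2 else 0) :=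
            sum_le_sum (fun v _ => fout_sq_le h hG g v)
        _ = (k : ℝ) * ∑ w ∈ I.filter (fun w => L w = l + 1), ∑ v ∈ I,
            (if R v w then (g w / g v) ^ 2 else 0) := by rw [← mul_sum, harc]
        _ ≤ (k : ℝ) * W (l + 1) := by
            rw [hin]
            apply mul_le_mul_of_nonneg_left _ hk0
            exact sum_le_sum (fun v _ => le_finn_sq g hg v)
        _ ≤ ((k : ℝ) + 1) * W (l + 1) := by
            apply mul_le_mul_of_nonneg_right _ (hWnn _)
            linarith
  · intro i j y hi hij hj hy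
    have hw := window h hG g hg i j hij (fun v hv h1 h2 => hcons v hv (by omega) (by omega))
      y hy hkt
    have e1 : ∑ l ∈ Ioo i j, y ^ l * W l
        = ∑ v ∈ I.filter (fun v => i < L v ∧ L v < j), y ^ (L v) * (fout I R g v) ^ 2 := by
      rw [← sum_fiberwise_of_maps_to (s := I.filter (fun v => i < L v ∧ L v < j))
        (t := Ioo i j) (g := L) (fun v hv => by
          rw [mem_filter] at hv
          rw [mem_Ioo]; exact hv.2)]
      apply sum_congr rfl
      intro l hl
      rw [mem_Ioo] at hl
      simp only [hW]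
      rw [mul_sum, filter_filter]
      apply sum_congr
      · ext v
        simp only [mem_filter]
        constructor
        · rintro ⟨a, b⟩; exact ⟨a, by omega, b⟩
        · rintro ⟨a, _, b⟩; exact ⟨a, b⟩
      · intro v hv
        rw [mem_filter] at hv
        rw [hv.2.2]
    have e2 : ∀ l, ∑ v ∈ I.filter (fun v => L v = l), y ^ (L v) * (fout I R g v) ^ 2
        = y ^ l * W l := by
      intro l
      simp only [hW]
      rw [mul_sum]
      apply sum_congr rfl
      intro v hv
      rw [mem_filter] at hv
      rw [hv.2]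
    rw [e2, e2] at hw
    rw [e1]
    refine hw.trans ?_
    have p1 := hWnn i
    have p2 := hWnn j
    have p3 : 0 < y ^ i := by positivity
    have p4 : 0 < y ^ j := by positivity
    apply mul_le_mul_of_nonneg_right _ (by positivity)
    have : (0 : ℝ) ≤ t := Nat.cast_nonneg t
    linarith

end Pool.Agent.KTR
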