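import Mathlib

/-!
Sequence lemma: a positive sequence with bounded ratios all of whose geometric tilts satisfy
a reverse window inequality has bounded length.
-/

namespace Pool.Agent.KTR

open Finset

/-- Symmetric windows around a point: geometric decay of the centre. -/
lemma window_decay (K : ℝ) (hK : 1 ≤ K) (Z : ℕ → ℝ) (c m : ℕ) (hcm : m + 1 < c)
    (hwin : ∀ r, 1 ≤ r → r ≤ m + 1 →
      ∑ l ∈ Ioo (c - r) (c + r), Z l ≤ K * (Z (c - r) + Z (c + r))) :
    Z c ≤ (K / (1 + K)) ^ m * (K * (Z (c - (m + 1)) + Z (c + (m + 1)))) := by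
  have hθ : 0 ≤ K / (1 + K) := by positivity
  -- T r = sum over the open window of radius r
  have key : ∀ r, r ≤ m → Z c ≤ (K / (1 + K)) ^ r * ∑ l ∈ Ioo (c - (r + 1)) (c + (r + 1)), Z l := by
    intro r
    induction r with
    | zero =>
      intro _
      have : Ioo (c - (0 + 1)) (c + (0 + 1)) = {c} := by
        ext x; simp only [mem_Ioo, mem_singleton]; omega
      rw [this]; simp
    | succ r ih =>
      intro hr
      have h1 := ih (by omega)
      have h2 := hwin (r + 1) (by omega) (by omega)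
      have hsplit : Ioo (c - (r + 1 + 1)) (c + (r + 1 + 1))
          = insert (c - (r + 1)) (insert (c + (r + 1)) (Ioo (c - (r + 1)) (c + (r + 1)))) := by
        ext x; simp only [mem_Ioo, mem_insert]; omega
      have hsum : ∑ l ∈ Ioo (c - (r + 1 + 1)) (c + (r + 1 + 1)), Z l
          = Z (c - (r + 1)) + (Z (c + (r + 1)) + ∑ l ∈ Ioo (c - (r + 1)) (c + (r + 1)), Z l) := by
        rw [hsplit, sum_insert, sum_insert]
        · simp
        · simp only [mem_insert, mem_Ioo]; omega
      set T := ∑ l ∈ Ioo (c - (r + 1)) (c + (r + 1)), Z l with hT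
      have h3 : T ≤ K / (1 + K) * (Z (c - (r + 1)) + (Z (c + (r + 1)) + T)) := by
        rw [div_mul_eq_mul_div, le_div_iff₀ (by linarith)]
        nlinarith
      rw [hsum, pow_succ]
      calc Z c ≤ (K / (1 + K)) ^ r * T := h1
        _ ≤ (K / (1 + K)) ^ r * (K / (1 + K) * (Z (c - (r + 1)) + (Z (c + (r + 1)) + T))) :=
            mul_le_mul_of_nonneg_left h3 (pow_nonneg hθ r)
        _ = _ := by ring
  have h1 := key m le_rfl
  have h2 := hwin (m + 1) (by omega) le_rfl
  exact h1.trans (mul_le_mul_of_nonneg_left h2 (pow_nonneg hθ m))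

theorem seq_bound (K : ℝ) (hK : 1 ≤ K) : ∃ N : ℕ, ∀ (n : ℕ) (W : ℕ → ℝ),
    (∀ l, 1 ≤ l → l < n → 0 < W l) →
    (∀ l, 1 ≤ l → l + 1 < n → W (l + 1) ≤ K * W l ∧ W l ≤ K * W (l + 1)) →
    (∀ i j (y : ℝ), 1 ≤ i → i < j → j < n → 0 < y →
      ∑ l ∈ Ioo i j, y ^ l * W l ≤ K * (y ^ i * W i + y ^ j * W j)) →
    n ≤ N := by
  have hK0 : 0 < K := by linarith
  have hθ0 : 0 < K / (1 + K) := by positivity
  have hθ1 : K / (1 + K) < 1 := by rw [div_lt_one (by linarith)]; linarith
  obtain ⟨m0, hm0⟩ := exists_pow_lt_of_lt_one (show (0 : ℝ) < 1 / (4 * K) by positivity) hθ1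
  set m := m0 + 1 with hm
  obtain ⟨J, hJ⟩ := pow_unbounded_of_one_lt (K ^ m * K ^ m) (show (1 : ℝ) < 4 by norm_num)
  refine ⟨2 + (J + 1) * m, ?_⟩
  intro n W hpos hgr hwin
  by_contra hn
  push Not at hn
  -- growth over m steps
  have hgrm : ∀ s l, 1 ≤ l → l + s < n → W (l + s) ≤ K ^ s * W l ∧ W l ≤ K ^ s * W (l + s) := by
    intro s
    induction s with
    | zero => intro l _ _; simp
    | succ s ih =>
      intro l hl hls
      obtain ⟨h1, h2⟩ := ih l hl (by omega)
      obtain ⟨h3, h4⟩ := hgr (l + s) (by omega) (by omega)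
      have hKs : 0 < K ^ s := by positivity
      constructor
      · calc W (l + (s + 1)) ≤ K * W (l + s) := h3
          _ ≤ K * (K ^ s * W l) := mul_le_mul_of_nonneg_left h1 hK0.le
          _ = _ := by ring
      · calc W l ≤ K ^ s * W (l + s) := h2
          _ ≤ K ^ s * (K * W (l + s + 1)) := mul_le_mul_of_nonneg_left h4 hKs.le
          _ = _ := by ring_nf
  -- convexity with a gap
  have hconv : ∀ c, m < c → c + m < n → 4 * (W c) ^ 2 ≤ W (c - m) * W (c + m) := by
    intro c hc1 hc2
    have hWm : 0 < W (c - m) := hpos _ (by omega) (by omega)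
    have hWp : 0 < W (c + m) := hpos _ (by omega) (by omega)
    have hWc : 0 < W c := hpos _ (by omega) (by omega)
    have hY : ∀ Y : ℝ, 0 < Y → W c ≤ 1 / 4 * (W (c - m) / Y + Y * W (c + m)) := by
      intro Y hY
      set y : ℝ := Y ^ ((m : ℝ)⁻¹) with hy
      have hy0 : 0 < y := Real.rpow_pos_of_pos hY _
      have hym : y ^ m = Y := by
        rw [hy, ← Real.rpow_natCast, ← Real.rpow_mul hY.le, inv_mul_cancel₀, Real.rpow_one]
        rw [hm]; positivity
      have h := window_decay K hK (fun l => y ^ l * W l) c m0 (by omega) (by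
          intro r h1 h2
          exact hwin (c - r) (c + r) y (by omega) (by omega) (by omega) hy0)
      beta_reduce at h
      rw [← hm] at h
      have e1 : y ^ c = y ^ (c - m) * Y := by rw [← hym, ← pow_add]; congr 1; omega
      have e2 : y ^ (c + m) = y ^ (c - m) * Y * Y := by
        rw [← hym, ← pow_add, ← pow_add]; congr 1; omega
      rw [e1, e2] at h
      have hp : 0 < y ^ (c - m) := by positivity
      have hθm : (K / (1 + K)) ^ m0 * K ≤ 1 / 4 := by
        have := mul_le_mul_of_nonneg_right hm0.le hK0.le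
        calc (K / (1 + K)) ^ m0 * K ≤ 1 / (4 * K) * K := this
          _ = 1 / 4 := by field_simp
      have hS : 0 ≤ y ^ (c - m) * W (c - m) + y ^ (c - m) * Y * Y * W (c + m) := by positivity
      have h5 : y ^ (c - m) * Y * W c
          ≤ 1 / 4 * (y ^ (c - m) * W (c - m) + y ^ (c - m) * Y * Y * W (c + m)) := by
        calc _ ≤ _ := h
          _ = ((K / (1 + K)) ^ m0 * K) *
              (y ^ (c - m) * W (c - m) + y ^ (c - m) * Y * Y * W (c + m)) := by ring
          _ ≤ _ := mul_le_mul_of_nonneg_right hθm hS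
      have h6 : y ^ (c - m) * Y * W c
          ≤ y ^ (c - m) * Y * (1 / 4 * (W (c - m) / Y + Y * W (c + m))) := by
        calc _ ≤ _ := h5
          _ = _ := by field_simp
      exact le_of_mul_le_mul_left h6 (by positivity)
    -- choose Y = 2 W c / W (c+m)
    have h := hY (2 * W c / W (c + m)) (by positivity)
    have e1 : W (c - m) / (2 * W c / W (c + m)) = W (c - m) * W (c + m) / (2 * W c) := by
      field_simp
    have e2 : 2 * W c / W (c + m) * W (c + m) = 2 * W c := by field_simp
    rw [e1, e2] at h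
    have h7 : 2 * W c ≤ W (c - m) * W (c + m) / (2 * W c) := by linarith
    rw [le_div_iff₀ (by positivity)] at h7
    nlinarith
  -- ratios
  have hratio : ∀ i, i ≤ J → 4 ^ i * W (2 + i * m) ≤ K ^ m * W (2 + (i + 1) * m) := by
    intro i
    induction i with
    | zero =>
      intro _
      have h := (hgrm m 2 (by omega) (by
        have : m ≤ (J + 1) * m := Nat.le_mul_of_pos_left m (by omega)
        omega)).2
      simpa using h
    | succ i ih =>
      intro hi
      have h1 := ih (by omega)
      have hb : (i + 2) * m ≤ (J + 1) * m := Nat.mul_le_mul_right m (by omega)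
      have e0 : (i + 2) * m = (i + 1) * m + m := by ring
      have e00 : (i + 1) * m = i * m + m := by ring
      have h2 := hconv (2 + (i + 1) * m) (by omega) (by omega)
      have e1 : 2 + (i + 1) * m - m = 2 + i * m := by omega
      have e2 : 2 + (i + 1) * m + m = 2 + (i + 1 + 1) * m := by
        rw [show i + 1 + 1 = i + 2 from rfl, e0]; omega
      rw [e1, e2] at h2
      have p1 : 0 < W (2 + i * m) := hpos _ (by omega) (by omega)
      have p2 : 0 < W (2 + (i + 1) * m) := hpos _ (by omega) (by omega)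
      have p3 : 0 < W (2 + (i + 1 + 1) * m) := hpos _ (by omega) (by
        rw [show i + 1 + 1 = i + 2 from rfl]; omega)
      have h3 : 4 ^ (i + 1) * W (2 + (i + 1) * m) * W (2 + i * m)
          ≤ K ^ m * W (2 + (i + 1 + 1) * m) * W (2 + i * m) := by
        have h4 : 4 ^ i * W (2 + i * m) * (4 * W (2 + (i + 1) * m))
            ≤ K ^ m * W (2 + (i + 1) * m) * (4 * W (2 + (i + 1) * m)) :=
          mul_le_mul_of_nonneg_right h1 (by positivity)
        have h5 : K ^ m * (4 * W (2 + (i + 1) * m) ^ 2)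
            ≤ K ^ m * (W (2 + i * m) * W (2 + (i + 1 + 1) * m)) :=
          mul_le_mul_of_nonneg_left h2 (by positivity)
        calc _ = 4 ^ i * W (2 + i * m) * (4 * W (2 + (i + 1) * m)) := by ring
          _ ≤ _ := h4
          _ = K ^ m * (4 * W (2 + (i + 1) * m) ^ 2) := by ring
          _ ≤ _ := h5
          _ = _ := by ring
      exact le_of_mul_le_mul_right h3 p1
  have hJm : (J + 1) * m = J * m + m := by ring
  have h1 := hratio J le_rfl
  have h2 := (hgrm m (2 + J * m) (by omega) (by omega)).1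
  have e3 : 2 + J * m + m = 2 + (J + 1) * m := by omega
  rw [e3] at h2
  have p1 : 0 < W (2 + J * m) := hpos _ (by omega) (by omega)
  have h3 : K ^ m * W (2 + (J + 1) * m) ≤ K ^ m * (K ^ m * W (2 + J * m)) :=
    mul_le_mul_of_nonneg_left h2 (by positivity)
  have h4 : 4 ^ J * W (2 + J * m) ≤ (K ^ m * K ^ m) * W (2 + J * m) := by
    calc _ ≤ _ := h1
      _ ≤ _ := h3
      _ = _ := by ring
  have h5 := le_of_mul_le_mul_right h4 p1
  linarith

end Pool.Agent.KTR
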