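import Pool.Agent.KTR.Local

/-!
The window inequality for a conserved flow on a geodesic interval.
-/

namespace Pool.Agent.KTR

open Finset

/-- Properties of the layered digraph of a geodesic interval. -/
structure Geo {V : Type*} (G : SimpleGraph V) (I : Finset V) (R : V → V → Prop) (L : V → ℕ) :
    Prop where
  adj : ∀ a b, R a b → G.Adj a b
  left : ∀ a b, R a b → a ∈ I
  right : ∀ a b, R a b → b ∈ I
  lev : ∀ a b, R a b → L b = L a + 1
  far : ∀ u v w, R u v → R v w → u ≠ w ∧ ¬ G.Adj u w
  mid : ∀ u x w, u ∈ I → w ∈ I → L w = L u + 2 → G.Adj u x → G.Adj x w → R u x ∧ R x w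

variable {V : Type*} [DecidableEq V] {G : SimpleGraph V} {k t : ℕ} {N : V → Finset V}
  {I : Finset V} {R : V → V → Prop} {L : V → ℕ}

/-- Squares with a horizontal diagonal. -/
def Sq (G : SimpleGraph V) (R : V → V → Prop) (u v x w : V) : Prop :=
  R u v ∧ R u x ∧ G.Adj v x ∧ R v w ∧ R x w

open Classical in
/-- Outgoing flow. -/
noncomputable def fout (I : Finset V) (R : V → V → Prop) (g : V → ℝ) (v : V) : ℝ :=
  ∑ w ∈ I, if R v w then g w / g v else 0

open Classical in
/-- Incoming flow. -/
noncomputable def finn (I : Finset V) (R : V → V → Prop) (g : V → ℝ) (v : V) : ℝ :=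
  ∑ u ∈ I, if R u v then g v / g u else 0

open Classical in
noncomputable def Kp (G : SimpleGraph V) (I : Finset V) (R : V → V → Prop) (g : V → ℝ) (u : V) :
    ℝ :=
  ∑ v ∈ I, ∑ x ∈ I, ∑ w ∈ I, if Sq G R u v x w then (g v / g u) * (g x / g u) else 0

open Classical in
noncomputable def Km (G : SimpleGraph V) (I : Finset V) (R : V → V → Prop) (g : V → ℝ) (w : V) :
    ℝ :=
  ∑ u ∈ I, ∑ v ∈ I, ∑ x ∈ I, if Sq G R u v x w then (g w / g v) * (g w / g x) else 0

open Classical in
noncomputable def Qsum (G : SimpleGraph V) (I : Finset V) (R : V → V → Prop) (g : V → ℝ) (v : V) :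
    ℝ :=
  ∑ u ∈ I, ∑ x ∈ I, ∑ w ∈ I, if Sq G R u v x w then g w / g u else 0

lemma Kp_nonneg (g : V → ℝ) (hg : ∀ v, 0 < g v) (v : V) : 0 ≤ Kp G I R g v := by
  unfold Kp
  refine sum_nonneg (fun a _ => sum_nonneg (fun b _ => sum_nonneg (fun c _ => ?_)))
  have := hg v; have := hg a; have := hg b
  split_ifs <;> positivity

lemma Km_nonneg (g : V → ℝ) (hg : ∀ v, 0 < g v) (v : V) : 0 ≤ Km G I R g v := by
  unfold Km
  refine sum_nonneg (fun a _ => sum_nonneg (fun b _ => sum_nonneg (fun c _ => ?_)))
  have := hg v; have := hg c; have := hg b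
  split_ifs <;> positivity

open Classical in
/-- Upper one-sided inequality at `v`. -/
lemma up_ineq (h : Nb G k t N) (hG : Geo G I R L) (g : V → ℝ) (hg : ∀ v, 0 < g v) (v : V) :
    ((I.filter (fun u => R u v)).card : ℝ) * (fout I R g v) ^ 2
      + ∑ x ∈ N v \ ((I.filter (fun w => R v w)) ∪ (I.filter (fun u => R u v))),
          (fout I R g v - ∑ w ∈ I.filter (fun w => R v w), if G.Adj w x then g w / g v else 0) ^ 2
      + Kp G I R g v ≤ ((k : ℝ) - 1 - t) * (fout I R g v) ^ 2 := by
  have hS : I.filter (fun w => R v w) ⊆ N v := by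
    intro w hw
    rw [mem_filter] at hw
    rw [h.mem]; exact hG.adj _ _ hw.2
  have hT : I.filter (fun u => R u v) ⊆ N v := by
    intro u hu
    rw [mem_filter] at hu
    rw [h.mem]; exact (hG.adj _ _ hu.2).symm
  have h1 := h.oneSided v (I.filter (fun w => R v w)) (I.filter (fun u => R u v)) hS hT
    (by
      intro a ha b hb
      rw [mem_filter] at ha hb
      have := hG.far b v a hb.2 ha.2
      exact ⟨this.1.symm, fun h2 => this.2 h2.symm⟩)
    (fun a => I.filter (fun w => R a w))
    (by
      intro a _ w hw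
      rw [mem_filter] at hw
      rw [h.mem]; exact hG.adj _ _ hw.2)
    (by
      intro a ha z hz
      rw [mem_filter] at ha hz
      have := hG.far v a z ha.2 hz.2
      exact ⟨this.1.symm, this.2⟩)
    (fun a => g a / g v) (by
      intro a _
      have := hg a; have := hg v
      positivity)
  have hf : ∑ a ∈ I.filter (fun w => R v w), g a / g v = fout I R g v := by
    rw [fout, sum_filter]
  have hK : ∑ a ∈ I.filter (fun w => R v w), ∑ b ∈ I.filter (fun w => R v w),
      (if G.Adj a b then g a / g v * (g b / g v) *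
        (((I.filter (fun w => R a w)) ∩ (I.filter (fun w => R b w))).card : ℝ) else 0)
      = Kp G I R g v := by
    rw [Kp, sum_filter]
    apply sum_congr rfl
    intro a _
    rw [sum_filter]
    by_cases h2 : R v a
    · rw [if_pos h2]
      apply sum_congr rfl
      intro b _
      by_cases h3 : R v b
      · rw [if_pos h3]
        by_cases h4 : G.Adj a b
        · rw [if_pos h4, ← filter_and, card_filter]
          push_cast
          rw [mul_sum]
          apply sum_congr rfl
          intro w _
          by_cases h5 : R a w ∧ R b w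
          · rw [if_pos h5, if_pos ⟨h2, h3, h4, h5.1, h5.2⟩, mul_one]
          · rw [if_neg h5, if_neg (fun h6 => h5 ⟨h6.2.2.2.1, h6.2.2.2.2⟩), mul_zero]
        · rw [if_neg h4]
          symm
          apply sum_eq_zero
          intro w _
          rw [if_neg (fun h6 => h4 h6.2.2.1)]
      · rw [if_neg h3]
        symm
        apply sum_eq_zero
        intro w _
        rw [if_neg (fun h6 => h3 h6.2.1)]
    · rw [if_neg h2]
      symm
      apply sum_eq_zero
      intro b _
      apply sum_eq_zero
      intro w _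
      rw [if_neg (fun h6 => h2 h6.1)]
  rw [hK, hf] at h1
  exact h1

open Classical in
/-- Lower one-sided inequality at `v`. -/
lemma down_ineq (h : Nb G k t N) (hG : Geo G I R L) (g : V → ℝ) (hg : ∀ v, 0 < g v) (v : V) :
    ((I.filter (fun w => R v w)).card : ℝ) * (finn I R g v) ^ 2
      + ∑ x ∈ N v \ ((I.filter (fun w => R v w)) ∪ (I.filter (fun u => R u v))),
          (finn I R g v - ∑ u ∈ I.filter (fun u => R u v), if G.Adj u x then g v / g u else 0) ^ 2
      + Km G I R g v ≤ ((k : ℝ) - 1 - t) * (finn I R g v) ^ 2 := by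
  have hS : I.filter (fun w => R v w) ⊆ N v := by
    intro w hw
    rw [mem_filter] at hw
    rw [h.mem]; exact hG.adj _ _ hw.2
  have hT : I.filter (fun u => R u v) ⊆ N v := by
    intro u hu
    rw [mem_filter] at hu
    rw [h.mem]; exact (hG.adj _ _ hu.2).symm
  have h1 := h.oneSided v (I.filter (fun u => R u v)) (I.filter (fun w => R v w)) hT hS
    (by
      intro a ha b hb
      rw [mem_filter] at ha hb
      exact hG.far a v b ha.2 hb.2)
    (fun a => I.filter (fun u => R u a))
    (by
      intro a _ w hw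
      rw [mem_filter] at hw
      rw [h.mem]; exact (hG.adj _ _ hw.2).symm)
    (by
      intro a ha z hz
      rw [mem_filter] at ha hz
      have := hG.far z a v hz.2 ha.2
      exact ⟨this.1, fun h2 => this.2 h2.symm⟩)
    (fun a => g v / g a) (by
      intro a _
      have := hg a; have := hg v
      positivity)
  have hf : ∑ a ∈ I.filter (fun u => R u v), g v / g a = finn I R g v := by
    rw [finn, sum_filter]
  have hK : ∑ a ∈ I.filter (fun u => R u v), ∑ b ∈ I.filter (fun u => R u v),
      (if G.Adj a b then g v / g a * (g v / g b) *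
        (((I.filter (fun u => R u a)) ∩ (I.filter (fun u => R u b))).card : ℝ) else 0)
      = Km G I R g v := by
    rw [Km, sum_comm' (s := I) (t := fun _ => I) (t' := I) (s' := fun _ => I)
      (by intro x y; tauto)]
    rw [sum_filter]
    apply sum_congr rfl
    intro a _
    rw [sum_comm (s := I) (t := I), sum_filter]
    by_cases h2 : R a v
    · rw [if_pos h2]
      apply sum_congr rfl
      intro b _
      by_cases h3 : R b v
      · rw [if_pos h3]
        by_cases h4 : G.Adj a b
        · rw [if_pos h4, ← filter_and, card_filter]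
          push_cast
          rw [mul_sum]
          apply sum_congr rfl
          intro w _
          by_cases h5 : R w a ∧ R w b
          · rw [if_pos h5, if_pos ⟨h5.1, h5.2, h4, h2, h3⟩, mul_one]
          · rw [if_neg h5, if_neg (fun h6 => h5 ⟨h6.1, h6.2.1⟩), mul_zero]
        · rw [if_neg h4]
          symm
          apply sum_eq_zero
          intro w _
          rw [if_neg (fun h6 => h4 h6.2.2.1)]
      · rw [if_neg h3]
        symm
        apply sum_eq_zero
        intro w _
        rw [if_neg (fun h6 => h3 h6.2.2.2.2)]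
    · rw [if_neg h2]
      symm
      apply sum_eq_zero
      intro b _
      apply sum_eq_zero
      intro w _
      rw [if_neg (fun h6 => h2 h6.2.2.2.1)]
  rw [hK, hf, union_comm] at h1
  exact h1

lemma Kp_le (h : Nb G k t N) (hG : Geo G I R L) (g : V → ℝ) (hg : ∀ v, 0 < g v) (v : V) :
    Kp G I R g v ≤ ((k : ℝ) - 1 - t) * (fout I R g v) ^ 2 := by
  classical
  have h1 := up_ineq h hG g hg v
  refine le_trans ?_ h1
  have h2 : 0 ≤ ((I.filter (fun u => R u v)).card : ℝ) * (fout I R g v) ^ 2 := by positivity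
  have h3 : 0 ≤ ∑ x ∈ N v \ ((I.filter (fun w => R v w)) ∪ (I.filter (fun u => R u v))),
          (fout I R g v - ∑ w ∈ I.filter (fun w => R v w),
            if G.Adj w x then g w / g v else 0) ^ 2 :=
    sum_nonneg (fun x _ => sq_nonneg _)
  linarith

lemma Km_le (h : Nb G k t N) (hG : Geo G I R L) (g : V → ℝ) (hg : ∀ v, 0 < g v) (v : V) :
    Km G I R g v ≤ ((k : ℝ) - 1 - t) * (finn I R g v) ^ 2 := by
  classical
  have h1 := down_ineq h hG g hg v
  refine le_trans ?_ h1
  have h2 : 0 ≤ ((I.filter (fun w => R v w)).card : ℝ) * (finn I R g v) ^ 2 := by positivity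
  have h3 : 0 ≤ ∑ x ∈ N v \ ((I.filter (fun w => R v w)) ∪ (I.filter (fun u => R u v))),
          (finn I R g v - ∑ u ∈ I.filter (fun u => R u v),
            if G.Adj u x then g v / g u else 0) ^ 2 :=
    sum_nonneg (fun x _ => sq_nonneg _)
  linarith

open Classical in
/-- The product of the two partial flows towards `x`. -/
lemma PR_le (h : Nb G k t N) (hG : Geo G I R L) (g : V → ℝ) (hg : ∀ v, 0 < g v) (v : V) :
    ∑ x ∈ N v \ ((I.filter (fun w => R v w)) ∪ (I.filter (fun u => R u v))),
      (∑ w ∈ I.filter (fun w => R v w), if G.Adj w x then g w / g v else 0)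
        * (∑ u ∈ I.filter (fun u => R u v), if G.Adj u x then g v / g u else 0)
      ≤ Qsum G I R g v := by
  have hgv := hg v
  have e : ∀ x ∈ N v, (∑ w ∈ I.filter (fun w => R v w), if G.Adj w x then g w / g v else 0)
        * (∑ u ∈ I.filter (fun u => R u v), if G.Adj u x then g v / g u else 0)
      = ∑ u ∈ I, ∑ w ∈ I, if Sq G R u v x w then g w / g u else 0 := by
    intro x hx
    rw [h.mem] at hx
    rw [mul_comm, sum_mul_sum, sum_filter]
    apply sum_congr rfl
    intro u hu
    rw [sum_filter]
    by_cases h1 : R u v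
    · rw [if_pos h1]
      apply sum_congr rfl
      intro w hw
      by_cases h2 : R v w
      · rw [if_pos h2]
        by_cases h3 : G.Adj u x ∧ G.Adj w x
        · have hl : L w = L u + 2 := by rw [hG.lev _ _ h2, hG.lev _ _ h1]
          have hm := hG.mid u x w hu hw hl h3.1 h3.2.symm
          have hs : Sq G R u v x w := ⟨h1, hm.1, hx, h2, hm.2⟩
          rw [if_pos h3.1, if_pos h3.2, if_pos hs]
          have := hg u
          field_simp
        · have hs : ¬ Sq G R u v x w := by
            rintro ⟨-, s2, -, -, s5⟩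
            exact h3 ⟨hG.adj _ _ s2, (hG.adj _ _ s5).symm⟩
          rw [if_neg hs]
          by_cases h4 : G.Adj u x
          · rw [if_neg (fun h5 => h3 ⟨h4, h5⟩), mul_zero]
          · rw [if_neg h4, zero_mul]
      · rw [if_neg h2, if_neg (fun hs => h2 hs.2.2.2.1)]
    · rw [if_neg h1]
      symm
      apply sum_eq_zero
      intro w _
      rw [if_neg (fun hs => h1 hs.1)]
  set A := N v \ ((I.filter (fun w => R v w)) ∪ (I.filter (fun u => R u v))) with hA
  have e2 : ∑ x ∈ A, (∑ w ∈ I.filter (fun w => R v w), if G.Adj w x then g w / g v else 0)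
        * (∑ u ∈ I.filter (fun u => R u v), if G.Adj u x then g v / g u else 0)
      = ∑ x ∈ A, ∑ u ∈ I, ∑ w ∈ I, if Sq G R u v x w then g w / g u else 0 := by
    apply sum_congr rfl
    intro x hx
    rw [hA, mem_sdiff] at hx
    exact e x hx.1
  rw [e2]
  have e3 : ∑ x ∈ A, (∑ u ∈ I, ∑ w ∈ I, if Sq G R u v x w then g w / g u else 0)
      = ∑ x ∈ A.filter (fun x => x ∈ I),
        (∑ u ∈ I, ∑ w ∈ I, if Sq G R u v x w then g w / g u else 0) := by
    rw [sum_filter]
    apply sum_congr rfl
    intro x _
    by_cases hx : x ∈ I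
    · rw [if_pos hx]
    · rw [if_neg hx]
      apply sum_eq_zero
      intro u _
      apply sum_eq_zero
      intro w _
      rw [if_neg (fun hs => hx (hG.right _ _ hs.2.1))]
  rw [e3, Qsum]
  rw [sum_comm (s := I) (t := I)]
  apply sum_le_sum_of_subset_of_nonneg
  · intro x hx
    exact (mem_filter.1 hx).2
  · intro x _ _
    refine sum_nonneg (fun u _ => sum_nonneg (fun w _ => ?_))
    have := hg u; have := hg w
    split_ifs <;> positivity

open Classical in
/-- The local inequality at a vertex where the flow is conserved. -/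
lemma local_ineq (h : Nb G k t N) (hG : Geo G I R L) (g : V → ℝ) (hg : ∀ v, 0 < g v) (v : V)
    (hf : finn I R g v = fout I R g v) :
    ((2 * t + 2 : ℝ) - k) * (fout I R g v) ^ 2 + Kp G I R g v + Km G I R g v
      ≤ 2 * Qsum G I R g v := by
  have h1 := up_ineq h hG g hg v
  have h2 := down_ineq h hG g hg v
  have h3 := PR_le h hG g hg v
  rw [hf] at h2
  set f := fout I R g v with hfdef
  set S := I.filter (fun w => R v w) with hS
  set T := I.filter (fun u => R u v) with hT
  set A := N v \ (S ∪ T) with hA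
  set P : V → ℝ := fun x => ∑ w ∈ S, if G.Adj w x then g w / g v else 0 with hP
  set Q : V → ℝ := fun x => ∑ u ∈ T, if G.Adj u x then g v / g u else 0 with hQ
  have hcard : (A.card : ℝ) + S.card + T.card = k := by
    have hsub : S ∪ T ⊆ N v := by
      intro x hx
      rw [mem_union] at hx
      rw [h.mem]
      rcases hx with hx | hx
      · exact hG.adj _ _ (mem_filter.1 hx).2
      · exact (hG.adj _ _ (mem_filter.1 hx).2).symm
    have hd : Disjoint S T := by
      rw [disjoint_left]
      intro x hx hx'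
      have a1 := hG.lev _ _ (mem_filter.1 hx).2
      have a2 := hG.lev _ _ (mem_filter.1 hx').2
      omega
    have b1 := card_sdiff_add_card_eq_card hsub
    rw [card_union_of_disjoint hd, h.deg] at b1
    have b2 : A.card + S.card + T.card = k := by rw [hA]; omega
    exact_mod_cast b2
  have h4 : ∀ x, f ^ 2 - 2 * (P x * Q x) ≤ (f - P x) ^ 2 + (f - Q x) ^ 2 := by
    intro x
    nlinarith [sq_nonneg (f - P x - Q x)]
  have h5 : (A.card : ℝ) * f ^ 2 - 2 * ∑ x ∈ A, P x * Q x
      ≤ ∑ x ∈ A, (f - P x) ^ 2 + ∑ x ∈ A, (f - Q x) ^ 2 := by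
    rw [← sum_add_distrib]
    calc (A.card : ℝ) * f ^ 2 - 2 * ∑ x ∈ A, P x * Q x
        = ∑ x ∈ A, (f ^ 2 - 2 * (P x * Q x)) := by
          rw [sum_sub_distrib, sum_const, nsmul_eq_mul, ← mul_sum]
      _ ≤ _ := sum_le_sum (fun x _ => h4 x)
  have hk : (k : ℝ) = A.card + S.card + T.card := hcard.symm
  have h6 : ∑ x ∈ A, P x * Q x ≤ Qsum G I R g v := h3
  have h7 : (T.card : ℝ) * f ^ 2 + ∑ x ∈ A, (f - P x) ^ 2 + Kp G I R g v
      ≤ ((k : ℝ) - 1 - t) * f ^ 2 := h1
  have h8 : (S.card : ℝ) * f ^ 2 + ∑ x ∈ A, (f - Q x) ^ 2 + Km G I R g v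
      ≤ ((k : ℝ) - 1 - t) * f ^ 2 := h2
  have h9 : (k : ℝ) * f ^ 2 = A.card * f ^ 2 + S.card * f ^ 2 + T.card * f ^ 2 := by
    rw [hk]; ring
  nlinarith

end Pool.Agent.KTR
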